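import Mathlib

/-!
# Primes of the ring of all algebraic integers
-/

set_option autoImplicit false

namespace Pool.Agent.K1H12.MV

open scoped Pointwise
open IntermediateField

/-- the algebraic numbers -/
abbrev Qa := AlgebraicClosure ℚ

/-- the ring of all algebraic integers -/
noncomputable abbrev Za := integralClosure ℤ Qa

instance topZa : TopologicalSpace Za := ⊥

instance discZa : DiscreteTopology Za := ⟨rfl⟩

instance isAlg_Qa : Algebra.IsAlgebraic ℚ Qa := AlgebraicClosure.isAlgebraic ℚ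

instance isGalois_Qa : IsGalois ℚ Qa := by
  have h1 : IsAlgClosed Qa := AlgebraicClosure.isAlgClosed ℚ
  have h2 : IsAlgClosure ℚ Qa := ⟨h1, isAlg_Qa⟩
  have h3 : Normal ℚ Qa := inferInstance
  exact ⟨⟩

theorem smul_coe (σ : Gal(Qa/ℚ)) (x : Za) : ((σ • x : Za) : Qa) = σ (x : Qa) := rfl

theorem stab_open (x : Qa) : IsOpen {σ : Gal(Qa/ℚ) | σ x = x} :=
  stabilizer_isOpen_of_isIntegral (K := ℚ) (L := Qa) x

instance contZa : ContinuousSMul Gal(Qa/ℚ) Za := by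
  rw [continuousSMul_iff_stabilizer_isOpen]
  intro x
  have h1 : ((MulAction.stabilizer Gal(Qa/ℚ) x : Subgroup Gal(Qa/ℚ)) : Set Gal(Qa/ℚ)) =
      {σ : Gal(Qa/ℚ) | σ (x : Qa) = x} := by
    ext σ
    constructor
    · intro h
      exact congrArg Subtype.val h
    · intro h
      exact Subtype.ext h
  rw [h1]
  exact stab_open _

/-- **Transitivity.** -/
theorem trans_of_under (H : Subgroup Gal(Qa/ℚ)) (hH : IsClosed (H : Set Gal(Qa/ℚ)))
    (P Q : Ideal Za) (hP : P.IsPrime) (hQ : Q.IsPrime)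
    (hPQ : ∀ x : Za, (∀ h ∈ H, h • x = x) → (x ∈ P ↔ x ∈ Q)) : ∃ h ∈ H, Q = h • P := by
  have hc : CompactSpace H := isCompact_iff_compactSpace.1 hH.isCompact
  have h1 : P.under (FixedPoints.subalgebra ℤ Za H) = Q.under (FixedPoints.subalgebra ℤ Za H) := by
    ext x
    exact hPQ x.1 fun h hh => x.2 ⟨h, hh⟩
  have : ContinuousSMul H Za := inferInstance
  have : Algebra.IsInvariant (FixedPoints.subalgebra ℤ Za H) Za H :=
    ⟨fun b hb => ⟨⟨b, hb⟩, rfl⟩⟩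
  obtain ⟨g, hg⟩ := Algebra.IsInvariant.exists_smul_of_under_eq_of_profinite
    (A := FixedPoints.subalgebra ℤ Za H) (G := H) P Q h1
  exact ⟨g.1, g.2, hg⟩

theorem int_of_fixed (x : Za) (hx : ∀ σ : Gal(Qa/ℚ), σ • x = x) : ∃ n : ℤ, x = n := by
  have h1 : (x : Qa) ∈ (⊥ : IntermediateField ℚ Qa) := by
    rw [← InfiniteGalois.fixedField_fixingSubgroup (⊥ : IntermediateField ℚ Qa),
      mem_fixedField_iff]
    intro σ _
    exact congrArg Subtype.val (hx σ)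
  obtain ⟨q, hq⟩ := IntermediateField.mem_bot.1 h1
  have h2 : IsIntegral ℤ q := by
    have h3 : IsIntegral ℤ (algebraMap ℚ Qa q) := by
      rw [hq]
      exact x.2
    exact (isIntegral_algebraMap_iff (algebraMap ℚ Qa).injective).1 h3
  obtain ⟨n, hn⟩ := IsIntegrallyClosed.isIntegral_iff.1 h2
  refine ⟨n, Subtype.ext ?_⟩
  rw [← hq, ← hn]
  simp

theorem int_mem {ℓ : ℕ} (hℓ : ℓ.Prime) {P : Ideal Za} (hP : P.IsPrime) (hℓP : (ℓ : Za) ∈ P)
    (n : ℤ) : (n : Za) ∈ P ↔ (ℓ : ℤ) ∣ n := by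
  constructor
  · intro h
    by_contra h1
    have h2 : IsCoprime (ℓ : ℤ) n := by
      have h3 : Prime (ℓ : ℤ) := Nat.prime_iff_prime_int.1 hℓ
      exact (h3.irreducible.coprime_iff_not_dvd).2 h1
    obtain ⟨a, b, hab⟩ := h2
    apply hP.ne_top
    rw [Ideal.eq_top_iff_one]
    have h3 : (1 : Za) = (a : Za) * (ℓ : Za) + (b : Za) * (n : Za) := by
      have h4 := congrArg (fun z : ℤ => (z : Za)) hab
      push_cast at h4
      exact h4.symm
    rw [h3]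
    exact P.add_mem (P.mul_mem_left _ hℓP) (P.mul_mem_left _ h)
  · rintro ⟨k, rfl⟩
    push_cast
    exact P.mul_mem_right _ hℓP

theorem trans_int {ℓ : ℕ} (hℓ : ℓ.Prime) {P Q : Ideal Za} (hP : P.IsPrime) (hQ : Q.IsPrime)
    (hℓP : (ℓ : Za) ∈ P) (hℓQ : (ℓ : Za) ∈ Q) : ∃ g : Gal(Qa/ℚ), Q = g • P := by
  obtain ⟨h, -, h2⟩ := trans_of_under ⊤ isClosed_univ P Q hP hQ (by
    intro x hx
    obtain ⟨n, rfl⟩ := int_of_fixed x fun σ => hx σ (Subgroup.mem_top σ)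
    rw [int_mem hℓ hP hℓP, int_mem hℓ hQ hℓQ])
  exact ⟨h, h2⟩

theorem exists_above {ℓ : ℕ} (hℓ : ℓ.Prime) : ∃ P : Ideal Za, P.IsPrime ∧ (ℓ : Za) ∈ P := by
  have h1 : ¬ IsUnit (ℓ : Za) := by
    intro h
    obtain ⟨y, hy⟩ := h.exists_right_inv
    have h2 : IsIntegral ℤ ((ℓ : ℚ)⁻¹) := by
      have h3 : (y : Qa) = algebraMap ℚ Qa (ℓ : ℚ)⁻¹ := by
        have h4 : (ℓ : Qa) * (y : Qa) = 1 := congrArg Subtype.val hy
        rw [map_inv₀, map_natCast]
        exact eq_inv_of_mul_eq_one_right h4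
      have h4 : IsIntegral ℤ (algebraMap ℚ Qa (ℓ : ℚ)⁻¹) := by
        rw [← h3]
        exact y.2
      exact (isIntegral_algebraMap_iff (algebraMap ℚ Qa).injective).1 h4
    obtain ⟨n, hn⟩ := IsIntegrallyClosed.isIntegral_iff.1 h2
    have h3 : (n : ℚ) * ℓ = 1 := by
      have h4 : (n : ℚ) = (ℓ : ℚ)⁻¹ := hn
      rw [h4]
      exact inv_mul_cancel₀ (Nat.cast_ne_zero.2 hℓ.ne_zero)
    have h4 : n * ℓ = 1 := by exact_mod_cast h3
    have h5 : (ℓ : ℤ) ∣ 1 := ⟨n, by rw [← h4, mul_comm]⟩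
    have h6 : ℓ ∣ 1 := by exact_mod_cast h5
    exact hℓ.one_lt.ne' (Nat.dvd_one.1 h6)
  obtain ⟨P, hP, hle⟩ := Ideal.exists_le_maximal (Ideal.span {(ℓ : Za)}) (by
    rw [Ne, Ideal.span_singleton_eq_top]
    exact h1)
  exact ⟨P, hP.isPrime, hle (Ideal.mem_span_singleton_self _)⟩

end Pool.Agent.K1H12.MV
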