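import Pool.Agent.K1H12.MV.Orb
import Pool.Agent.Q60.MU.Main

/-!
# Only finitely many prime numbers ramify
-/

set_option autoImplicit false

namespace Pool.Agent.K1H12.MV

open scoped Pointwise
open IntermediateField Subgroup Polynomial

/-- **Only finitely many primes ramify.** -/
theorem exists_bad (N : IntermediateField ℚ Qa) [FiniteDimensional ℚ N] :
    ∃ c : ℕ, c ≠ 0 ∧ ∀ P : Ideal Za, P.IsPrime → ∀ σ ∈ P.inertia Gal(Qa/ℚ), σ ∉ N.fixingSubgroup →
      (c : Za) ∈ P := by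
  have halg : ∀ x : Qa, IsAlgebraic ℤ x := fun x =>
    (IsFractionRing.isAlgebraic_iff ℤ ℚ Qa).2 ((AlgebraicClosure.isAlgebraic ℚ).isAlgebraic x)
  obtain ⟨α, hα⟩ := Field.exists_primitive_element ℚ N
  obtain ⟨y, hy0, hyi⟩ := (halg (α : Qa)).exists_integral_multiple
  set β : Za := ⟨y • (α : Qa), hyi⟩ with hβ
  have hσ : ∀ σ : Gal(Qa/ℚ), σ • β = β → σ ∈ N.fixingSubgroup := by
    intro σ h
    have h1 : σ (α : Qa) = α := by
      have h0 : σ (y • (α : Qa)) = y • (α : Qa) := congrArg Subtype.val h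
      rw [map_zsmul] at h0
      exact smul_right_injective _ hy0 h0
    rw [IntermediateField.mem_fixingSubgroup_iff]
    intro x hx
    have h2 : (⟨x, hx⟩ : N) ∈ IntermediateField.adjoin ℚ {α} := by
      rw [hα]
      exact IntermediateField.mem_top
    obtain ⟨r, s, hrs⟩ := (IntermediateField.mem_adjoin_simple_iff ℚ _).1 h2
    have h3 : x = aeval (α : Qa) r / aeval (α : Qa) s := by
      have h4 := congrArg N.val hrs
      rw [map_div₀, ← aeval_algHom_apply, ← aeval_algHom_apply] at h4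
      exact h4
    have h4 : ∀ q : ℚ[X], σ (aeval (α : Qa) q) = aeval (α : Qa) q := by
      intro q
      have h5 := aeval_algHom_apply (σ : Qa →ₐ[ℚ] Qa) (α : Qa) q
      have h6 : (σ : Qa →ₐ[ℚ] Qa) (α : Qa) = α := h1
      rw [h6] at h5
      exact h5.symm
    rw [h3, map_div₀, h4, h4]
  set P₀ := minpoly ℤ (β : Qa) with hP₀def
  have hP₀ : P₀.map (algebraMap ℤ ℚ) = minpoly ℚ (β : Qa) :=
    (minpoly.isIntegrallyClosed_eq_field_fractions' ℚ hyi).symm
  have hcoe : ∀ (q : ℤ[X]) (x : Za), ((aeval x q : Za) : Qa) = aeval (x : Qa) q := fun q x =>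
    (aeval_algHom_apply (Subalgebra.val Za) x q).symm
  have hroot : aeval β P₀ = 0 := by
    apply Subtype.ext
    rw [hcoe]
    exact minpoly.aeval ℤ (β : Qa)
  set D : Za := aeval β (derivative P₀) with hD
  have hD0 : D ≠ 0 := by
    intro h0
    have h1 : (D : Qa) = aeval (β : Qa) (derivative (minpoly ℚ (β : Qa))) := by
      rw [← hP₀, derivative_map, aeval_map_algebraMap, hD, hcoe]
    have h2 : IsIntegral ℚ (β : Qa) := hyi.tower_top
    have h3 := (minpoly.irreducible h2).separable.aeval_derivative_ne_zero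
      (minpoly.aeval ℚ (β : Qa))
    apply h3
    rw [← h1, h0]
    rfl
  obtain ⟨c, hc0, hci⟩ := (halg (D : Qa)⁻¹).exists_integral_multiple
  have hcD : ((c : ℤ) : Za) = D * ⟨c • (D : Qa)⁻¹, hci⟩ := by
    apply Subtype.ext
    have h1 : (D : Qa) ≠ 0 := fun h => hD0 (Subtype.ext h)
    show ((c : ℤ) : Qa) = (D : Qa) * (c • (D : Qa)⁻¹)
    rw [zsmul_eq_mul]
    field_simp
  refine ⟨c.natAbs, Int.natAbs_ne_zero.2 hc0, fun P hP σ hσP hσN => ?_⟩
  have hh : σ • β - β ∈ P := hσP β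
  have hh0 : σ • β - β ≠ 0 := fun h => hσN (hσ σ (sub_eq_zero.1 h))
  have hDP : D ∈ P := by
    obtain ⟨k, hk⟩ := binomExpansion (P₀.map (algebraMap ℤ Za)) β (σ • β - β)
    have hev : ∀ (q : ℤ[X]) (x : Za), (q.map (algebraMap ℤ Za)).eval x = aeval x q := fun q x => by
      rw [eval_map_algebraMap]
    have h1 : (P₀.map (algebraMap ℤ Za)).eval (β + (σ • β - β)) = 0 := by
      rw [add_sub_cancel, hev]
      have h3 := aeval_algHom_apply (MulSemiringAction.toAlgHom ℤ Za σ) β P₀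
      rw [hroot, map_zero] at h3
      exact h3
    rw [h1, hev, hroot, zero_add, derivative_map, hev, ← hD] at hk
    have h5 : (σ • β - β) * (D + k * (σ • β - β)) = 0 := by
      rw [hk]
      ring
    have h6 := (mul_eq_zero.1 h5).resolve_left hh0
    have h7 : D = (σ • β - β) * (-k) := by linear_combination h6
    rw [h7]
    exact P.mul_mem_right _ hh
  have hcP : ((c : ℤ) : Za) ∈ P := by
    rw [hcD]
    exact P.mul_mem_right _ hDP
  rcases Int.natAbs_eq c with h | h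
  · have h1 : ((c : ℤ) : Za) = ((c.natAbs : ℕ) : Za) := by
      have h2 := congrArg (Int.cast : ℤ → Za) h
      rwa [Int.cast_natCast] at h2
    rw [← h1]
    exact hcP
  · have h1 : ((c : ℤ) : Za) = -((c.natAbs : ℕ) : Za) := by
      have h2 := congrArg (Int.cast : ℤ → Za) h
      rwa [Int.cast_neg, Int.cast_natCast] at h2
    have h2 : ((c.natAbs : ℕ) : Za) = -((c : ℤ) : Za) := by
      rw [h1, neg_neg]
    rw [h2]
    exact P.neg_mem hcP

theorem exists_prime {P : Ideal Za} (hP : P.IsPrime) {c : ℕ} (hc : c ≠ 0) (h : (c : Za) ∈ P) :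
    ∃ ℓ ∈ c.primeFactors, (ℓ : Za) ∈ P := by
  induction c using Nat.strong_induction_on with
  | _ c ih =>
    by_cases h1 : c = 1
    · exfalso
      rw [h1, Nat.cast_one] at h
      exact hP.ne_top ((Ideal.eq_top_iff_one P).2 h)
    have hp := Nat.minFac_prime h1
    obtain ⟨d, hd⟩ := Nat.minFac_dvd c
    have hd0 : d ≠ 0 := by
      rintro rfl
      rw [mul_zero] at hd
      exact hc hd
    have hdc : d < c := by
      conv_rhs => rw [hd]
      exact lt_mul_of_one_lt_left (Nat.pos_of_ne_zero hd0) hp.one_lt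
    rw [hd, Nat.cast_mul] at h
    rcases hP.mem_or_mem h with h2 | h2
    · exact ⟨c.minFac, Nat.mem_primeFactors.2 ⟨hp, Nat.minFac_dvd c, hc⟩, h2⟩
    · obtain ⟨ℓ, hℓ, hℓA⟩ := ih d hdc hd0 h2
      refine ⟨ℓ, Nat.mem_primeFactors.2 ⟨Nat.prime_of_mem_primeFactors hℓ, ?_, hc⟩, hℓA⟩
      exact (Nat.dvd_of_mem_primeFactors hℓ).trans ⟨_, by rw [mul_comm]; exact hd⟩

theorem finOrb {p ℓ : ℕ} (hp : p.Prime) (hℓ : ℓ.Prime) : FinOrb (Ginf p) ℓ := by
  by_cases h : ℓ = p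
  · subst h
    exact finOrb_eq hp
  · exact finOrb_ne hp hℓ h

theorem FinOrb.inf {H U : Subgroup Gal(Qa/ℚ)} {ℓ : ℕ} (h : FinOrb H ℓ) (hU : U.index ≠ 0) :
    FinOrb (U ⊓ H) ℓ := by
  obtain ⟨T, hT⟩ := h
  have h1 : (U ⊓ H).relIndex H ≠ 0 := by
    rw [inf_relIndex_right]
    have h2 : U.FiniteIndex := ⟨hU⟩
    have h3 : (U.subgroupOf H).FiniteIndex := inferInstance
    exact h3.index_ne_zero
  obtain ⟨T', -, hT'⟩ := Pool.Agent.Q60.MU.exists_TL h1 T
  refine ⟨T', fun P hP hℓP => ?_⟩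
  obtain ⟨Q, hQ, n, hn, rfl⟩ := hT P hP hℓP
  obtain ⟨Q', hQ', l, hl, h2⟩ := hT' Q hQ n hn
  exact ⟨Q', hQ', l, hl, h2⟩

theorem FinOrb.mono {H H' : Subgroup Gal(Qa/ℚ)} {ℓ : ℕ} (h : FinOrb H ℓ) (hU : H ≤ H') :
    FinOrb H' ℓ := by
  obtain ⟨T, hT⟩ := h
  refine ⟨T, fun P hP hℓP => ?_⟩
  obtain ⟨Q, hQ, n, hn, h2⟩ := hT P hP hℓP
  exact ⟨Q, hQ, n, hU hn, h2⟩

end Pool.Agent.K1H12.MV
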