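import Pool.Agent.K1H12.MV.Gen

/-!
# Cyclotomic `ℤ_p`-extensions
-/

set_option autoImplicit false

namespace Pool.Agent.K1H12.MV

open Subgroup Pool.Agent.Q60.MU IntermediateField Module
open scoped commutatorElement Topology Pointwise

/-- The cyclotomic `ℤ_p`-extension of `ℚ`: the subfield of `ℚ(μ_{p^∞})` fixed by all the
automorphisms which have finite order on `ℚ(μ_{p^∞})`. -/
noncomputable def cycQ (p : ℕ) : IntermediateField ℚ Qa :=
  fixedField (Subgroup.closure {σ : Gal(Qa/ℚ) | ∃ n : ℕ, n ≠ 0 ∧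
    ∀ (k : ℕ) (ζ : Qa), ζ ^ p ^ k = 1 → (σ ^ n) ζ = ζ})

/-- The cyclotomic `ℤ_p`-extension of the number field `F`. -/
noncomputable def cyc (p : ℕ) (F : IntermediateField ℚ Qa) : IntermediateField ℚ Qa := F ⊔ cycQ p

theorem mem_cycQ {p : ℕ} {x : Qa} : x ∈ cycQ p ↔ ∀ σ : Gal(Qa/ℚ), (∃ n : ℕ, n ≠ 0 ∧
    ∀ (k : ℕ) (ζ : Qa), ζ ^ p ^ k = 1 → (σ ^ n) ζ = ζ) → σ x = x := by
  rw [cycQ, mem_fixedField_iff]
  constructor
  · intro h σ hσ
    exact h σ (Subgroup.subset_closure hσ)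
  · intro h σ hσ
    have h1 : Subgroup.closure {σ : Gal(Qa/ℚ) | ∃ n : ℕ, n ≠ 0 ∧
        ∀ (k : ℕ) (ζ : Qa), ζ ^ p ^ k = 1 → (σ ^ n) ζ = ζ} ≤ MulAction.stabilizer Gal(Qa/ℚ) x := by
      rw [Subgroup.closure_le]
      intro τ hτ
      exact h τ hτ
    exact h1 hσ

theorem cycQ_stable {p : ℕ} (g : Gal(Qa/ℚ)) {x : Qa} (hx : x ∈ cycQ p) : g x ∈ cycQ p := by
  rw [mem_cycQ] at hx ⊢
  rintro σ ⟨n, hn, h⟩
  have h1 := hx (g⁻¹ * σ * g) ⟨n, hn, fun k ζ hζ => by
    have h2 : (g⁻¹ * σ * g) ^ n = g⁻¹ * σ ^ n * g := by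
      have h3 := conj_pow (a := g⁻¹) (b := σ) (i := n)
      rwa [inv_inv] at h3
    rw [h2]
    show g⁻¹ ((σ ^ n) (g ζ)) = ζ
    rw [h k (g ζ) (by rw [← map_pow, hζ, map_one]), ← AlgEquiv.mul_apply, inv_mul_cancel,
      AlgEquiv.one_apply]⟩
  have h2 : g ((g⁻¹ * σ * g) x) = σ (g x) := by
    show g (g⁻¹ (σ (g x))) = σ (g x)
    rw [← AlgEquiv.mul_apply, mul_inv_cancel, AlgEquiv.one_apply]
  rw [← h2, h1]

instance cycQ_normal (p : ℕ) : (cycQ p).fixingSubgroup.Normal := by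
  refine ⟨fun σ hσ g => (mem_fixingSubgroup_iff _ _).2 fun x hx => ?_⟩
  have h1 : σ (g⁻¹ x) = g⁻¹ x := (mem_fixingSubgroup_iff _ _).1 hσ _ (cycQ_stable g⁻¹ hx)
  show g (σ (g⁻¹ x)) = x
  rw [h1, ← AlgEquiv.mul_apply, mul_inv_cancel, AlgEquiv.one_apply]

theorem Ginf_le (p : ℕ) : Ginf p ≤ (cycQ p).fixingSubgroup := by
  intro σ hσ
  refine (mem_fixingSubgroup_iff _ _).2 fun x hx => ?_
  refine mem_cycQ.1 hx σ ⟨1, one_ne_zero, fun k ζ hζ => ?_⟩
  rw [pow_one]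
  rw [Ginf, mem_iInf] at hσ
  exact hσ k ζ hζ

theorem fixing_cyc (p : ℕ) (F : IntermediateField ℚ Qa) :
    (cyc p F).fixingSubgroup = F.fixingSubgroup ⊓ (cycQ p).fixingSubgroup := fixingSubgroup_sup ..

theorem fixing_index (E : IntermediateField ℚ Qa) [FiniteDimensional ℚ E] :
    E.fixingSubgroup.index ≠ 0 := by
  rw [← finrank_eq_fixingSubgroup_index]
  exact (finrank_pos (R := ℚ) (M := E)).ne'

/-- a suitable family of local subgroups -/
structure Fam (p : ℕ) (I : Ideal Za → Subgroup Gal(Qa/ℚ)) : Prop where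
  conj : ∀ (g : Gal(Qa/ℚ)) (P : Ideal Za), ∀ x ∈ I P, g * x * g⁻¹ ∈ I (g • P)
  prime : ∀ P : Ideal Za, I P = ⊥ ∨ P.IsPrime
  inertia : ∀ P : Ideal Za, (p : Za) ∉ P → I P ≤ P.inertia Gal(Qa/ℚ)

/-- `Gal(K(F^cyc)/F^cyc)` is finitely generated -/
def FGc (p : ℕ) (I : Ideal Za → Subgroup Gal(Qa/ℚ)) (F : IntermediateField ℚ Qa) : Prop :=
  FGal (cyc p F) (maxI p I (cyc p F))

theorem fgc_iff {p : ℕ} [Fact p.Prime] {I : Ideal Za → Subgroup Gal(Qa/ℚ)}
    {F : IntermediateField ℚ Qa} :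
    FGc p I F ↔ ∃ C, Rk p I (F.fixingSubgroup ⊓ (cycQ p).fixingSubgroup) C := by
  rw [FGc, fg_iff, fixing_cyc]

theorem rel_ne {E N Z : Subgroup Gal(Qa/ℚ)} (hN : N.index ≠ 0) :
    (N ⊓ Z).relIndex (E ⊓ Z) ≠ 0 := by
  have h1 : (N ⊓ Z).relIndex (E ⊓ Z) = N.relIndex (E ⊓ Z) := by
    rw [← inf_relIndex_right, ← inf_relIndex_right N]
    congr 1
    ext x
    simp only [Subgroup.mem_inf]
    tauto
  rw [h1]
  have h2 : N.FiniteIndex := ⟨hN⟩
  exact (inferInstance : (N.subgroupOf (E ⊓ Z)).FiniteIndex).index_ne_zero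

/-- **Subfields.** -/
theorem FGc.of_le {p : ℕ} [Fact p.Prime] {I : Ideal Za → Subgroup Gal(Qa/ℚ)}
    {E N : IntermediateField ℚ Qa} [FiniteDimensional ℚ N] (hEN : E ≤ N) (h : FGc p I N) :
    FGc p I E := by
  rw [fgc_iff] at h ⊢
  obtain ⟨C, hC⟩ := h
  refine ⟨_, hC.of_le (inf_le_inf_right _ (fixingSubgroup_le hEN)) ?_ (rel_ne (fixing_index N))⟩
  rw [Subgroup.coe_inf]
  exact (fixing_closed N).inter (fixing_closed _)

/-- **Detecting subfields.** -/
theorem FGc.detect {p : ℕ} [Fact p.Prime] {I : Ideal Za → Subgroup Gal(Qa/ℚ)} (hI : Fam p I)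
    {F N : IntermediateField ℚ Qa} [FiniteDimensional ℚ N] (hFN : F ≤ N)
    (hNn : ∀ σ ∈ F.fixingSubgroup, ∀ x ∈ N, σ x ∈ N)
    (hvec : ∀ (S : Type) [AddCommGroup S] [Module (ZMod p) S] [Module.Finite (ZMod p) S]
      (τ : Representation (ZMod p) F.fixingSubgroup S),
      (∀ g ∈ N.fixingSubgroup.subgroupOf F.fixingSubgroup, ∀ x, τ g x = x) → IsSimple τ →
      ∃ E : IntermediateField ℚ Qa, (F ≤ E ∧ E ≤ N ∧ FGc p I E) ∧
        ∃ v : S, v ≠ 0 ∧ ∀ g : F.fixingSubgroup, (g : Gal(Qa/ℚ)) ∈ E.fixingSubgroup → τ g v = v) :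
    FGc p I N := by
  classical
  have hp : p.Prime := Fact.out
  have hN0 := fixing_index N
  have hle := fixingSubgroup_le hFN
  have hF0 : F.fixingSubgroup.index ≠ 0 := by
    intro h
    have h1 := index_dvd_of_le hle
    rw [h] at h1
    exact hN0 (Nat.eq_zero_of_zero_dvd h1)
  rw [fgc_iff]
  obtain ⟨c, hc0, hc⟩ := exists_bad N
  have horb : ∀ ℓ, ℓ.Prime → FinOrb (F.fixingSubgroup ⊓ (cycQ p).fixingSubgroup) ℓ := fun ℓ hℓ =>
    ((finOrb hp hℓ).inf hF0).mono (inf_le_inf_left _ (Ginf_le p))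
  choose! T hT using horb
  refine Pool.Agent.K1H12.MV.detect hI.conj (fixing_closed _) hle ?_ N.fixingSubgroup_isOpen ?_
    ((c * p).primeFactors.biUnion T) ?_ ?_
  · intro d hd x hx
    refine (mem_fixingSubgroup_iff _ _).2 fun y hy => ?_
    have h1 : d⁻¹ y ∈ N := hNn _ (inv_mem hd) y hy
    have h2 : x (d⁻¹ y) = d⁻¹ y := (mem_fixingSubgroup_iff _ _).1 hx _ h1
    show d (x (d⁻¹ y)) = y
    rw [h2, ← AlgEquiv.mul_apply, mul_inv_cancel, AlgEquiv.one_apply]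
  · have h2 : N.fixingSubgroup.FiniteIndex := ⟨hN0⟩
    exact (inferInstance : (N.fixingSubgroup.subgroupOf F.fixingSubgroup).FiniteIndex).index_ne_zero
  · intro P
    rcases hI.prime P with h | hP
    · left
      rw [h]
      exact inf_le_left.trans bot_le
    · have key : ∀ ℓ ∈ (c * p).primeFactors, (ℓ : Za) ∈ P →
          ∃ u ∈ (c * p).primeFactors.biUnion T,
            ∃ d ∈ F.fixingSubgroup ⊓ (cycQ p).fixingSubgroup, P = d • u := by
        intro ℓ hℓ hℓP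
        obtain ⟨Q, hQ, d, hd, h⟩ := hT ℓ (Nat.prime_of_mem_primeFactors hℓ) P hP hℓP
        exact ⟨Q, Finset.mem_biUnion.2 ⟨ℓ, hℓ, hQ⟩, d, hd, h⟩
      have hcp : c * p ≠ 0 := mul_ne_zero hc0 hp.ne_zero
      by_cases hpP : (p : Za) ∈ P
      · exact Or.inr (key p (Nat.mem_primeFactors.2 ⟨hp, Dvd.intro_left c rfl, hcp⟩) hpP)
      · by_cases h : I P ≤ N.fixingSubgroup
        · exact Or.inl (inf_le_left.trans h)
        · right
          obtain ⟨σ, hσ, hσN⟩ := SetLike.not_le_iff_exists.1 h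
          have h1 := hc P hP σ (hI.inertia P hpP hσ) hσN
          obtain ⟨ℓ, hℓ, hℓP⟩ := exists_prime hP hc0 h1
          refine key ℓ (Nat.mem_primeFactors.2 ⟨Nat.prime_of_mem_primeFactors hℓ, ?_, hcp⟩) hℓP
          exact (Nat.dvd_of_mem_primeFactors hℓ).trans (Dvd.intro p rfl)
  · intro S _ _ _ τ hτ hs
    obtain ⟨E, ⟨hFE, hEN, hE⟩, v, hv, hfix⟩ := hvec S τ hτ hs
    exact ⟨E.fixingSubgroup, ⟨fixingSubgroup_le hEN, fixingSubgroup_le hFE, fgc_iff.1 hE⟩, v, hv,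
      hfix⟩

/-- The representation factors through the Galois group of a number field. -/
def FiniteImage {p : ℕ} {S : Type} [AddCommGroup S] [Module (ZMod p) S]
    (τ : Representation (ZMod p) Gal(Qa/ℚ) S) : Prop :=
  ∃ N : IntermediateField ℚ Qa, FiniteDimensional ℚ N ∧ ∀ g ∈ N.fixingSubgroup, ∀ x, τ g x = x

/-- the field `ℚ(v)` fixed by the elements of the Galois group which fix `v` -/
noncomputable def vecField {p : ℕ} [Fact p.Prime] {S : Type} [AddCommGroup S] [Module (ZMod p) S]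
    (τ : Representation (ZMod p) Gal(Qa/ℚ) S) (v : S) : IntermediateField ℚ Qa :=
  fixedField (stab τ v)

/-- For every simple representation of the Galois group of `ℚ` over `𝔽_p` with finite image the set
`𝓥` contains the field `ℚ(v)` of some nonzero vector `v`. -/
def Selects (p : ℕ) [Fact p.Prime] (𝓥 : Set (IntermediateField ℚ Qa)) : Prop :=
  ∀ (S : Type) [AddCommGroup S] [Module (ZMod p) S] [Module.Finite (ZMod p) S]
    (τ : Representation (ZMod p) Gal(Qa/ℚ) S), IsSimple τ → FiniteImage τ →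
    ∃ v : S, v ≠ 0 ∧ vecField τ v ∈ 𝓥

/-- `E = ℚ(v)` for a nonzero vector `v` in a simple representation of the Galois group of `ℚ` over
`𝔽_p` with finite image. -/
def IsVectorField (p : ℕ) [Fact p.Prime] (E : IntermediateField ℚ Qa) : Prop :=
  ∃ (S : Type) (_ : AddCommGroup S) (_ : Module (ZMod p) S) (_ : Module.Finite (ZMod p) S)
    (τ : Representation (ZMod p) Gal(Qa/ℚ) S) (v : S), IsSimple τ ∧ FiniteImage τ ∧ v ≠ 0 ∧
    E = vecField τ v

section gen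

variable {k : Type} [Field k] {G : Type} [Group G] {S : Type} [AddCommGroup S] [Module k S]

/-- The subgroup `H` acts trivially. -/
def TrivialOn (H : Subgroup G) (σ : Representation k G S) : Prop := ∀ g ∈ H, ∀ x, σ g x = x

/-- There is a nonzero vector which is fixed by the subgroup `H`. -/
def HasVector (H : Subgroup G) (σ : Representation k G S) : Prop :=
  ∃ v : S, v ≠ 0 ∧ ∀ g ∈ H, σ g v = v

end gen

/-- Every simple representation of `D` over `k` on which `H` acts trivially has a nonzero vector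
which is fixed by `K ∩ D`, for some `K` in the set `𝓗`. -/
def VectorsFor (k : Type) [Field k] {G : Type} [Group G] (D H : Subgroup G)
    (𝓗 : Set (Subgroup G)) : Prop :=
  ∀ (S : Type) [AddCommGroup S] [Module k S] [Module.Finite k S] (σ : Representation k D S),
    TrivialOn (H.subgroupOf D) σ → IsSimple σ → ∃ K ∈ 𝓗, HasVector (K.subgroupOf D) σ

/-- Every simple `𝔽_p[Gal(N/F)]`-module has a nonzero vector fixed by `Gal(N/E)` for some `E` in
the set `𝓔` of intermediate fields. -/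
def Detecting (p : ℕ) [Fact p.Prime] (F N : IntermediateField ℚ Qa)
    (𝓔 : Set (IntermediateField ℚ Qa)) : Prop :=
  (∀ E ∈ 𝓔, F ≤ E ∧ E ≤ N) ∧
    VectorsFor (ZMod p) F.fixingSubgroup N.fixingSubgroup {K | ∃ E ∈ 𝓔, K = E.fixingSubgroup}

/-- `N` is a number field and `N/F` is a Galois extension. -/
def IsGaloisExt (F N : IntermediateField ℚ Qa) : Prop :=
  FiniteDimensional ℚ N ∧ F ≤ N ∧ ∀ σ ∈ F.fixingSubgroup, ∀ x ∈ N, σ x ∈ N

/-- `M/L` is a Galois extension with an abelian Galois group whose exponent is a power of `p`. -/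
def IsAbelianExt (p : ℕ) (L M : IntermediateField ℚ Qa) : Prop :=
  L ≤ M ∧ (∀ σ ∈ L.fixingSubgroup, ∀ x ∈ M, σ x ∈ M) ∧
  (∀ σ ∈ L.fixingSubgroup, ∀ τ ∈ L.fixingSubgroup, ∀ x ∈ M, σ (τ x) = τ (σ x)) ∧
  ∃ k, ∀ σ ∈ L.fixingSubgroup, ∀ x ∈ M, (σ ^ p ^ k) x = x

/-- The elements of `D` which fix `L` act trivially on `M`. -/
def ActsTrivially (L M : IntermediateField ℚ Qa) (D : Subgroup Gal(Qa/ℚ)) : Prop :=
  ∀ σ ∈ D, σ ∈ L.fixingSubgroup → ∀ x ∈ M, σ x = x

/-- the fields `ℚ(v)` of degree prime to `p` -/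
def PrimeTo (p : ℕ) [Fact p.Prime] : Set (IntermediateField ℚ Qa) :=
  {E | IsVectorField p E ∧ ¬ p ∣ finrank ℚ E}

theorem stab_fixing {p : ℕ} [Fact p.Prime] {S : Type} [AddCommGroup S] [Module (ZMod p) S]
    {τ : Representation (ZMod p) Gal(Qa/ℚ) S} {N : IntermediateField ℚ Qa}
    (hN : FiniteDimensional ℚ N) (hτ : ∀ g ∈ N.fixingSubgroup, ∀ x, τ g x = x) (v : S) :
    (fixedField (stab τ v)).fixingSubgroup = stab τ v := by
  have hle : N.fixingSubgroup ≤ stab τ v := fun g hg => hτ g hg v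
  have hso : IsOpen (stab τ v : Set Gal(Qa/ℚ)) := Subgroup.isOpen_mono hle N.fixingSubgroup_isOpen
  exact fix_fixed ((stab τ v).isClosed_of_isOpen hso)

theorem stab_le {p : ℕ} [Fact p.Prime] {S : Type} [AddCommGroup S] [Module (ZMod p) S]
    {τ : Representation (ZMod p) Gal(Qa/ℚ) S} {N : IntermediateField ℚ Qa}
    (hτ : ∀ g ∈ N.fixingSubgroup, ∀ x, τ g x = x) (v : S) : fixedField (stab τ v) ≤ N := by
  have hle : N.fixingSubgroup ≤ stab τ v := fun g hg => hτ g hg v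
  rw [← InfiniteGalois.fixedField_fixingSubgroup N]
  exact fixedField_antitone hle

theorem IsVectorField.finite {p : ℕ} [Fact p.Prime] {E : IntermediateField ℚ Qa}
    (h : IsVectorField p E) : FiniteDimensional ℚ E := by
  obtain ⟨S, _, _, _, τ, v, -, ⟨N, hN, hτ⟩, -, rfl⟩ := h
  exact Submodule.finiteDimensional_of_le (S₁ := Subalgebra.toSubmodule
    (fixedField (stab τ v)).toSubalgebra) (S₂ := Subalgebra.toSubmodule N.toSubalgebra)
    (stab_le hτ v)

/-- **The fields `ℚ(v)` of degree prime to `p` suffice.** -/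
theorem selects_prime_to (p : ℕ) [Fact p.Prime] :
    Selects p (PrimeTo p) := by
  intro S _ _ _ τ hs hN
  obtain ⟨N, hNf, hτ⟩ := hN
  have hnt : Nontrivial S := hs.1
  -- the normal core
  set K := N.fixingSubgroup.normalCore with hK
  have hNfi : N.fixingSubgroup.FiniteIndex := ⟨fixing_index N⟩
  have hKf : K.index ≠ 0 := by
    have : K.FiniteIndex := N.fixingSubgroup.finiteIndex_normalCore
    exact FiniteIndex.index_ne_zero
  obtain ⟨v, hv, P, hP, hPp⟩ := exists_vec_P (normalCore_normal _ : K.Normal) hKf τ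
    (fun g hg => hτ g (normalCore_le _ hg))
  refine ⟨v, hv, ⟨S, inferInstance, inferInstance, inferInstance, τ, v, hs, ⟨N, hNf, hτ⟩, hv, rfl⟩,
    ?_⟩
  rw [vecField, finrank_eq_fixingSubgroup_index, stab_fixing hNf hτ]
  exact fun h1 => hPp (h1.trans (index_dvd_of_le hP))

/-- **The reduction.** -/
theorem FGc.reduction {p : ℕ} [Fact p.Prime] {I : Ideal Za → Subgroup Gal(Qa/ℚ)} (hI : Fam p I)
    {𝓥 : Set (IntermediateField ℚ Qa)} (h𝓥 : Selects p 𝓥) {N : IntermediateField ℚ Qa}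
    [FiniteDimensional ℚ N] (hNn : ∀ σ : Gal(Qa/ℚ), ∀ x ∈ N, σ x ∈ N)
    (h : ∀ E ∈ 𝓥, E ≤ N → FGc p I E) : FGc p I N := by
  refine FGc.detect hI (F := ⊥) bot_le (fun σ _ x hx => hNn σ x hx) ?_
  intro S _ _ _ τ hτ hs
  have hbot : (⊥ : IntermediateField ℚ Qa).fixingSubgroup = ⊤ := fixingSubgroup_bot
  let e : Gal(Qa/ℚ) →* (⊥ : IntermediateField ℚ Qa).fixingSubgroup :=
    { toFun := fun g => ⟨g, by rw [hbot]; exact mem_top g⟩
      map_one' := rfl
      map_mul' := fun _ _ => rfl }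
  let τ' : Representation (ZMod p) Gal(Qa/ℚ) S := τ.comp e
  have hτ' : ∀ g (h : g ∈ (⊥ : IntermediateField ℚ Qa).fixingSubgroup) x, τ' g x = τ ⟨g, h⟩ x :=
    fun g h x => rfl
  have hs' : IsSimple τ' := by
    refine ⟨hs.1, fun U hU => hs.2 U ?_⟩
    rintro ⟨g, hg⟩ x hx
    have h1 := hU g x hx
    rw [hτ' g hg] at h1
    exact h1
  have hN' : ∀ g ∈ N.fixingSubgroup, ∀ x, τ' g x = x := by
    intro g hg x
    rw [hτ' g (by rw [hbot]; exact mem_top g)]
    exact hτ _ hg x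
  obtain ⟨v, hv, hE⟩ := h𝓥 S τ' hs' ⟨N, inferInstance, hN'⟩
  refine ⟨fixedField (stab τ' v), ⟨bot_le, stab_le hN' v, h _ hE (stab_le hN' v)⟩, v, hv, ?_⟩
  intro g hg
  rw [stab_fixing inferInstance hN' v] at hg
  exact hg

/-- every number field is contained in a Galois extension -/
theorem exists_closure (F : IntermediateField ℚ Qa) [FiniteDimensional ℚ F] :
    ∃ N : IntermediateField ℚ Qa, FiniteDimensional ℚ N ∧ F ≤ N ∧
      (∀ σ : Gal(Qa/ℚ), ∀ x ∈ N, σ x ∈ N) ∧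
      ∀ R : IntermediateField ℚ Qa, (∀ σ : Gal(Qa/ℚ), ∀ x ∈ R, σ x ∈ R) → F ≤ R → N ≤ R := by
  have hUf : F.fixingSubgroup.FiniteIndex := ⟨fixing_index F⟩
  set K := F.fixingSubgroup.normalCore with hKdef
  have hKn : K.Normal := normalCore_normal _
  have hKo : IsOpen (K : Set Gal(Qa/ℚ)) :=
    isOpen_normalCore F.fixingSubgroup_isOpen (fixing_index F)
  have hKf : K.index ≠ 0 := by
    have : K.FiniteIndex := F.fixingSubgroup.finiteIndex_normalCore
    exact FiniteIndex.index_ne_zero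
  have hfix : (fixedField K).fixingSubgroup = K := fix_fixed (K.isClosed_of_isOpen hKo)
  refine ⟨fixedField K, ?_, (le_iff_le _ _).2 (normalCore_le _), ?_, ?_⟩
  · apply FiniteDimensional.of_finrank_pos
    rw [finrank_eq_fixingSubgroup_index, hfix]
    exact Nat.pos_of_ne_zero hKf
  · intro σ x hx
    rw [mem_fixedField_iff] at hx ⊢
    intro k hk
    have h1 := hx _ (hKn.conj_mem k hk σ⁻¹)
    have h2 : k (σ x) = σ ((σ⁻¹ * k * σ⁻¹⁻¹) x) := by
      rw [← AlgEquiv.mul_apply, ← AlgEquiv.mul_apply]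
      congr 1
      group
    rw [h2, h1]
  · intro R hR hFR
    have hRn : R.fixingSubgroup.Normal := by
      refine ⟨fun σ hσ g => (mem_fixingSubgroup_iff _ _).2 fun x hx => ?_⟩
      have h1 : σ (g⁻¹ x) = g⁻¹ x := (mem_fixingSubgroup_iff _ _).1 hσ _ (hR g⁻¹ x hx)
      show g (σ (g⁻¹ x)) = x
      rw [h1, ← AlgEquiv.mul_apply, mul_inv_cancel, AlgEquiv.one_apply]
    have h1 : R.fixingSubgroup ≤ K := normal_le_normalCore.2 (fixingSubgroup_le hFR)
    rw [← InfiniteGalois.fixedField_fixingSubgroup R]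
    exact fixedField_antitone h1

end Pool.Agent.K1H12.MV
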