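import Pool.Agent.K1H12.MV.Frob

/-!
# Finite decomposition in the cyclotomic tower
-/

set_option autoImplicit false

namespace Pool.Agent.K1H12.MV

open scoped Pointwise
open IntermediateField Subgroup

theorem frob_zeta {p ℓ : ℕ} (hp : p.Prime) (hℓ : ℓ.Prime) (hne : ℓ ≠ p) {P : Ideal Za}
    (hP : P.IsPrime) (hℓP : (ℓ : Za) ∈ P) {φ : Gal(Qa/ℚ)} (hφ : ∀ x : Za, φ • x - x ^ ℓ ∈ P)
    (k : ℕ) (ζ : Qa) (hζ : ζ ^ p ^ k = 1) : φ ζ = ζ ^ ℓ := by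
  set n := p ^ k with hn
  have hn0 : 0 < n := pow_pos hp.pos _
  have hint : IsIntegral ℤ ζ := IsIntegral.of_pow hn0 (by rw [hζ]; exact isIntegral_one)
  set z : Za := ⟨ζ, hint⟩ with hz
  have hzn : z ^ n = 1 := Subtype.ext hζ
  have hwn : (φ • z) ^ n = 1 := by rw [← smul_pow', hzn, smul_one]
  set η : Za := (φ • z) * z ^ ((n - 1) * ℓ) with hη
  have h1 : z ^ ℓ * z ^ ((n - 1) * ℓ) = 1 := by
    rw [← pow_add]
    have h2 : ℓ + (n - 1) * ℓ = n * ℓ := by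
      obtain ⟨m, hm⟩ := Nat.exists_eq_succ_of_ne_zero hn0.ne'
      rw [hm, Nat.succ_sub_one, Nat.succ_mul, add_comm]
    rw [h2, pow_mul, hzn, one_pow]
  have h2 : η - 1 ∈ P := by
    have h3 : η - 1 = (φ • z - z ^ ℓ) * z ^ ((n - 1) * ℓ) := by
      rw [sub_mul, h1]
    rw [h3]
    exact P.mul_mem_right _ (hφ z)
  have h3 : η ^ n = 1 := by
    rw [hη, mul_pow, hwn, one_mul, ← pow_mul, mul_comm, pow_mul, hzn, one_pow]
  have h4 := geom_sum_mul η n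
  rw [h3, sub_self, mul_eq_zero] at h4
  rcases h4 with h4 | h4
  · exfalso
    have h5 : ∀ i, Ideal.Quotient.mk P (η ^ i) = 1 := by
      intro i
      have h6 : Ideal.Quotient.mk P η = 1 := by
        rw [← map_one (Ideal.Quotient.mk P), Ideal.Quotient.eq]
        exact h2
      rw [map_pow, h6, one_pow]
    have h6 := congrArg (Ideal.Quotient.mk P) h4
    rw [map_sum, Finset.sum_congr rfl (fun i _ => h5 i), Finset.sum_const, Finset.card_range,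
      map_zero, nsmul_eq_mul, mul_one] at h6
    have h7 : ((n : ℤ) : Za) ∈ P := by
      rw [← Ideal.Quotient.eq_zero_iff_mem]
      simpa using h6
    rw [int_mem hℓ hP hℓP] at h7
    have h8 : ℓ ∣ p ^ k := by exact_mod_cast h7
    exact hne ((Nat.prime_dvd_prime_iff_eq hℓ hp).1 (hℓ.dvd_of_dvd_pow h8))
  · rw [sub_eq_zero] at h4
    have h5 : φ • z = z ^ ℓ := by
      have h6 : (φ • z) * z ^ ((n - 1) * ℓ) * z ^ ℓ = z ^ ℓ := by
        rw [← hη, h4, one_mul]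
      rwa [mul_assoc, mul_comm (z ^ ((n - 1) * ℓ)), h1, mul_one] at h6
    exact congrArg Subtype.val h5

theorem order_bound {p ℓ : ℕ} (hp : p.Prime) (hℓ : ℓ.Prime) (hne : ℓ ≠ p) :
    ∃ t, ∀ k o : ℕ, o ≠ 0 → p ^ k ∣ ℓ ^ o - 1 → p ^ k ≤ t * o := by
  have hF : Fact p.Prime := ⟨hp⟩
  have hnd : ¬ p ∣ ℓ := fun h => hne ((Nat.prime_dvd_prime_iff_eq hp hℓ).1 h).symm
  have hℓ1 := hℓ.one_lt
  rcases hp.eq_two_or_odd' with h2 | hodd
  · subst h2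
    refine ⟨(ℓ + 1) * (ℓ - 1) * 2, fun k o ho hd => ?_⟩
    have h1 : 2 ∣ ℓ - 1 := by omega
    have h2 := padicValNat.pow_two_sub_pow (x := ℓ) (y := 1) hℓ1 h1 hnd (n := 2 * o)
      (by omega) (even_two_mul o)
    rw [one_pow] at h2
    have h3 : 2 ^ k ∣ ℓ ^ (2 * o) - 1 := by
      refine hd.trans ?_
      have h4 := Nat.sub_dvd_pow_sub_pow (ℓ ^ o) 1 2
      rwa [one_pow, ← pow_mul, mul_comm o 2] at h4
    have h4 : 1 < ℓ ^ (2 * o) := Nat.one_lt_pow (by omega) hℓ1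
    have h5 : k ≤ padicValNat 2 (ℓ ^ (2 * o) - 1) := (padicValNat_dvd_iff_le (by omega)).1 h3
    have h6 : k ≤ padicValNat 2 ((ℓ + 1) * (ℓ - 1) * (2 * o)) := by
      rw [padicValNat.mul (mul_ne_zero (by omega) (by omega)) (by omega),
        padicValNat.mul (by omega) (by omega)]
      omega
    have h7 : (ℓ + 1) * (ℓ - 1) * (2 * o) ≠ 0 :=
      mul_ne_zero (mul_ne_zero (by omega) (by omega)) (by omega)
    have h8 := Nat.le_of_dvd (Nat.pos_of_ne_zero h7) ((padicValNat_dvd_iff_le h7).2 h6)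
    rw [mul_assoc]
    exact h8
  · refine ⟨ℓ ^ (p - 1) - 1, fun k o ho hd => ?_⟩
    have hp1 : p - 1 ≠ 0 := by
      have := hp.one_lt
      omega
    have h0 : 1 < ℓ ^ (p - 1) := Nat.one_lt_pow hp1 hℓ1
    have h1 : p ∣ ℓ ^ (p - 1) - 1 := by
      have h2 : (ℓ : ZMod p) ≠ 0 := by
        rw [Ne, ZMod.natCast_eq_zero_iff]
        exact hnd
      have h3 := ZMod.pow_card_sub_one_eq_one h2
      have h4 : ((ℓ ^ (p - 1) - 1 : ℕ) : ZMod p) = 0 := by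
        rw [Nat.cast_sub h0.le, Nat.cast_pow, h3, Nat.cast_one, sub_self]
      exact (ZMod.natCast_eq_zero_iff _ _).1 h4
    have hnd' : ¬ p ∣ ℓ ^ (p - 1) := fun h => hnd (hp.dvd_of_dvd_pow h)
    have h2 := padicValNat.pow_sub_pow (p := p) hodd (x := ℓ ^ (p - 1)) (y := 1) h0 h1 hnd' ho
    rw [one_pow] at h2
    have h3 : p ^ k ∣ (ℓ ^ (p - 1)) ^ o - 1 := by
      refine hd.trans ?_
      have h4 := Nat.sub_dvd_pow_sub_pow (ℓ ^ o) 1 (p - 1)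
      rwa [one_pow, ← pow_mul, mul_comm o, pow_mul] at h4
    have h4 : 1 < (ℓ ^ (p - 1)) ^ o := Nat.one_lt_pow ho h0
    have h5 : k ≤ padicValNat p ((ℓ ^ (p - 1)) ^ o - 1) := (padicValNat_dvd_iff_le (by omega)).1 h3
    have h6 : k ≤ padicValNat p ((ℓ ^ (p - 1) - 1) * o) := by
      rw [padicValNat.mul (by omega) ho]
      omega
    have h7 : (ℓ ^ (p - 1) - 1) * o ≠ 0 := mul_ne_zero (by omega) ho
    exact Nat.le_of_dvd (Nat.pos_of_ne_zero h7) ((padicValNat_dvd_iff_le h7).2 h6)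

theorem index_bound {p ℓ : ℕ} (hp : p.Prime) (hℓ : ℓ.Prime) (hne : ℓ ≠ p) :
    ∃ t, ∀ (φ : Gal(Qa/ℚ)), (∀ (k : ℕ) (ζ : Qa), ζ ^ p ^ k = 1 → φ ζ = ζ ^ ℓ) →
      ∀ (k : ℕ) (B : Subgroup Gal(Qa/ℚ)), Gk p k ≤ B → φ ∈ B → B.index ≠ 0 ∧ B.index ≤ t := by
  obtain ⟨t, ht⟩ := order_bound hp hℓ hne
  refine ⟨t, fun φ hφ k B hB hφB => ?_⟩
  obtain ⟨χ, h1, h2⟩ := exists_chi hp k
  have hne : NeZero (p ^ k) := ⟨pow_ne_zero _ hp.ne_zero⟩
  have h3 := h2 φ ℓ (hφ k)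
  have h4 : (zpowers (χ φ)).comap χ ≤ B := by
    intro g hg
    obtain ⟨j, hj⟩ := mem_zpowers_iff.1 hg
    have h5 : χ (g * (φ ^ j)⁻¹) = 1 := by
      rw [map_mul, map_inv, map_zpow, ← hj, mul_inv_cancel]
    have h6 := B.mul_mem (hB (h1 _ h5)) (B.zpow_mem hφB j)
    rwa [inv_mul_cancel_right] at h6
  have h5 : ((zpowers (χ φ)).comap χ).index ∣ (zpowers (χ φ)).index := by
    rw [index_comap]
    exact relIndex_dvd_index_of_normal _ _
  have h6 := (zpowers (χ φ)).index_mul_card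
  have h7 : (zpowers (χ φ)).index ≠ 0 := FiniteIndex.index_ne_zero
  have h8 : B.index ∣ (zpowers (χ φ)).index := (index_dvd_of_le h4).trans h5
  refine ⟨fun h => h7 (Nat.eq_zero_of_zero_dvd (h ▸ h8)), ?_⟩
  refine (Nat.le_of_dvd (Nat.pos_of_ne_zero h7) h8).trans ?_
  rw [Nat.card_zpowers] at h6
  have ho : orderOf (χ φ) ≠ 0 := (orderOf_pos _).ne'
  have h9 : p ^ k ∣ ℓ ^ orderOf (χ φ) - 1 := by
    have h10 := congrArg (fun u : (ZMod (p ^ k))ˣ => (u : ZMod (p ^ k))) (pow_orderOf_eq_one (χ φ))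
    simp only [Units.val_pow_eq_pow_val, Units.val_one] at h10
    rw [h3] at h10
    have h11 : ((ℓ ^ orderOf (χ φ) - 1 : ℕ) : ZMod (p ^ k)) = 0 := by
      rw [Nat.cast_sub (Nat.one_le_pow _ _ hℓ.pos), Nat.cast_pow, h10, Nat.cast_one, sub_self]
    exact (ZMod.natCast_eq_zero_iff _ _).1 h11
  have h10 := ht k _ ho h9
  have h11 : Nat.card (ZMod (p ^ k))ˣ ≤ p ^ k := by
    rw [Nat.card_eq_fintype_card, ZMod.card_units_eq_totient]
    exact Nat.totient_le _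
  exact Nat.le_of_mul_le_mul_right (h6.le.trans (h11.trans h10)) (Nat.pos_of_ne_zero ho)

end Pool.Agent.K1H12.MV
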