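import Pool.Agent.K1H12.MV.Rk

/-!
# Detection for closed subgroups of infinite index
-/

set_option autoImplicit false

namespace Pool.Agent.K1H12.MV

open Subgroup Pool.Agent.Q60.MU
open scoped commutatorElement Topology

theorem extend_rep {k : Type} [Field k] {𝔾 : Type} [Group 𝔾] {K D : Subgroup 𝔾} (hK : K.Normal)
    {S : Type} [AddCommGroup S] [Module k S] (σ : Representation k D S)
    (htriv : ∀ g ∈ K.subgroupOf D, ∀ x, σ g x = x) :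
    ∃ σ' : Representation k (K ⊔ D : Subgroup 𝔾) S,
      (∀ g ∈ K.subgroupOf (K ⊔ D), ∀ x, σ' g x = x) ∧
      ∀ (d : D) (h : (d : 𝔾) ∈ K ⊔ D), σ' ⟨d, h⟩ = σ d := by
  classical
  have hex : ∀ x : (K ⊔ D : Subgroup 𝔾), ∃ d : D, (x : 𝔾) * (d : 𝔾)⁻¹ ∈ K := by
    intro x
    obtain ⟨κ, hκ, d, hd, h⟩ := mem_sup_of_normal_left.1 x.2
    refine ⟨⟨d, hd⟩, ?_⟩
    rw [← h, mul_inv_cancel_right]
    exact hκ
  choose f hf using hex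
  have hwd : ∀ d d' : D, (d : 𝔾) * (d' : 𝔾)⁻¹ ∈ K → σ d = σ d' := by
    intro d d' h
    have h1 : d * d'⁻¹ ∈ K.subgroupOf D := h
    have h2 : d = (d * d'⁻¹) * d' := by group
    rw [h2, map_mul]
    apply LinearMap.ext
    intro x
    rw [Module.End.mul_apply, htriv _ h1]
  have hone : σ 1 = 1 := map_one σ
  refine ⟨⟨⟨fun x => σ (f x), ?_⟩, fun x y => ?_⟩, fun g hg x => ?_, fun d h => ?_⟩
  · rw [← hone]
    apply hwd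
    have h1 := K.inv_mem (hf 1)
    rw [OneMemClass.coe_one, one_mul, inv_inv] at h1
    rw [OneMemClass.coe_one, inv_one, mul_one]
    exact h1
  · show σ (f (x * y)) = σ (f x) * σ (f y)
    rw [← map_mul]
    apply hwd
    have h1 := K.inv_mem (hf (x * y))
    have h2 := K.mul_mem (hK.conj_mem _ (hf y) x) (hf x)
    have h3 := K.mul_mem h1 h2
    have h4 : ((x * y : (K ⊔ D : Subgroup 𝔾)) : 𝔾) * ((f (x * y) : D) : 𝔾)⁻¹ =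
      (x : 𝔾) * y * ((f (x * y) : D) : 𝔾)⁻¹ := rfl
    rw [h4] at h3
    have h5 : (f (x * y) : 𝔾) * ((f x * f y : D) : 𝔾)⁻¹ =
        ((x : 𝔾) * y * ((f (x * y) : D) : 𝔾)⁻¹)⁻¹ *
          ((x : 𝔾) * ((y : 𝔾) * ((f y : D) : 𝔾)⁻¹) * (x : 𝔾)⁻¹ * ((x : 𝔾) * ((f x : D) : 𝔾)⁻¹)) := by
      push_cast
      group
    rw [h5]
    exact h3
  · have h1 : f g ∈ K.subgroupOf D := by
      show ((f g : D) : 𝔾) ∈ K
      have h2 : ((f g : D) : 𝔾) = ((g : 𝔾) * ((f g : D) : 𝔾)⁻¹)⁻¹ * g := by group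
      rw [h2]
      exact K.mul_mem (K.inv_mem (hf g)) hg
    exact htriv _ h1 x
  · show σ (f ⟨d, h⟩) = σ d
    symm
    exact hwd _ _ (hf ⟨d, h⟩)

/-- **Detection.** -/
theorem detect {𝔾 : Type} [Group 𝔾] [t : TopologicalSpace 𝔾] [IsTopologicalGroup 𝔾] {p : ℕ}
    [Fact p.Prime] {Ω : Type} [MulAction 𝔾 Ω] {I : Ω → Subgroup 𝔾}
    (hI : ∀ (g : 𝔾) (w : Ω), ∀ x ∈ I w, g * x * g⁻¹ ∈ I (g • w))
    {Z : Subgroup 𝔾} [hZn : Z.Normal] (hZ : IsClosed (Z : Set 𝔾)) {K U : Subgroup 𝔾}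
    (hKU : K ≤ U) (hKn : ∀ u ∈ U, ∀ x ∈ K, u * x * u⁻¹ ∈ K) (hKo : IsOpen (K : Set 𝔾))
    (hKf : K.relIndex U ≠ 0) (T : Finset Ω)
    (hT : ∀ w, I w ⊓ (U ⊓ Z) ≤ K ∨ ∃ u ∈ T, ∃ d ∈ U ⊓ Z, w = d • u)
    (hvec : ∀ (S : Type) [AddCommGroup S] [Module (ZMod p) S] [Module.Finite (ZMod p) S]
      (τ : Representation (ZMod p) U S), (∀ g ∈ K.subgroupOf U, ∀ x, τ g x = x) → IsSimple τ →
      ∃ L : Subgroup 𝔾, (K ≤ L ∧ L ≤ U ∧ ∃ C, Rk p I (L ⊓ Z) C) ∧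
        ∃ v : S, v ≠ 0 ∧ ∀ g : U, (g : 𝔾) ∈ L → τ g v = v) :
    ∃ C, Rk p I (K ⊓ Z) C := by
  classical
  have hK'n : (K.subgroupOf U).Normal := ⟨fun x hx g => hKn g g.2 x hx⟩
  have hfin : {L : Subgroup 𝔾 | K ≤ L ∧ L ≤ U ∧ ∃ C, Rk p I (L ⊓ Z) C}.Finite := by
    refine Set.Finite.of_finite_image (f := fun L : Subgroup 𝔾 => L.subgroupOf U)
      ((finite_ge hK'n hKf).subset ?_) ?_
    · rintro _ ⟨L, hL, rfl⟩
      intro x hx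
      exact hL.1 hx
    · intro L hL M hM h
      have h1 : ∀ N : Subgroup 𝔾, N ≤ U → (N.subgroupOf U).map U.subtype = N := by
        intro N hN
        rw [subgroupOf_map_subtype, inf_of_le_left hN]
      rw [← h1 L hL.2.1, ← h1 M hM.2.1]
      exact congrArg (Subgroup.map U.subtype) h
  set 𝓛 := hfin.toFinset with h𝓛
  have hmem : ∀ L, L ∈ 𝓛 ↔ K ≤ L ∧ L ≤ U ∧ ∃ C, Rk p I (L ⊓ Z) C := fun L => by
    rw [h𝓛, Set.Finite.mem_toFinset]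
    rfl
  obtain ⟨C, hC⟩ : ∃ C, ∀ L ∈ 𝓛, Rk p I (L ⊓ Z) C := by
    choose! c hc using fun L (hL : L ∈ 𝓛) => ((hmem L).1 hL).2.2
    exact ⟨𝓛.sup c, fun L hL => (hc L hL).mono (Finset.le_sup hL)⟩
  have hrel : (K ⊓ Z).relIndex (U ⊓ Z) = K.relIndex (U ⊓ Z) := by
    rw [← inf_relIndex_right, ← inf_relIndex_right K]
    congr 1
    ext x
    simp only [mem_inf]
    tauto
  have h3 : (K ⊓ Z).relIndex (U ⊓ Z) ≠ 0 := by
    rw [hrel]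
    exact fun h => hKf (relIndex_eq_zero_of_le_right inf_le_left h)
  have hdet : Detects (ZMod p) ((K ⊓ Z).subgroupOf (U ⊓ Z))
      (𝓛.image fun L => L ⊓ Z) (fun L => L.subgroupOf (U ⊓ Z)) := by
    intro S _ _ _ σ htriv hsim
    have hnt : Nontrivial S := hsim.1
    set D' : Subgroup U := (U ⊓ Z).subgroupOf U with hD'
    set K' : Subgroup U := K.subgroupOf U with hK'
    let σ₀ : Representation (ZMod p) D' S :=
      σ.comp (subgroupOfEquivOfLe (inf_le_left : U ⊓ Z ≤ U)).toMonoidHom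
    have hσ₀ : ∀ (x : D') (h : ((x : U) : 𝔾) ∈ U ⊓ Z), σ₀ x = σ ⟨((x : U) : 𝔾), h⟩ :=
      fun x h => rfl
    obtain ⟨σ₁, h1, h2⟩ := extend_rep hK'n σ₀ (by
      intro g hg x
      rw [hσ₀ g g.2]
      exact htriv _ ⟨hg, g.2.2⟩ x)
    have hidx : (K' ⊔ D').index ≠ 0 := by
      intro h
      have h4 : (K' ⊔ D').index ∣ K'.index := index_dvd_of_le le_sup_left
      rw [h] at h4
      exact hKf (Nat.eq_zero_of_zero_dvd h4)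
    obtain ⟨L', g, ⟨L, rfl, hKL, hLU, hLC⟩, hco⟩ := exists_vector σ₁ hidx hK'n h1
      (fun L' => ∃ L : Subgroup 𝔾, L' = L.subgroupOf U ∧ K ≤ L ∧ L ≤ U ∧ ∃ C, Rk p I (L ⊓ Z) C)
      (by
        intro Q _ _ _ τ hτ hs
        obtain ⟨L, hL, v, hv, hfix⟩ := hvec Q τ hτ hs
        exact ⟨L.subgroupOf U, ⟨L, rfl, hL⟩, v, hv, fun x hx => hfix x hx⟩)
    set Lg : Subgroup 𝔾 := L.map (MulAut.conj (g : 𝔾)).toMonoidHom with hLg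
    have hLgm : Lg ∈ 𝓛 := by
      rw [hmem]
      refine ⟨fun x hx => ⟨(g : 𝔾)⁻¹ * x * (g : 𝔾)⁻¹⁻¹, ?_, ?_⟩, ?_, ?_⟩
      · exact hKL (hKn _ (U.inv_mem g.2) x hx)
      · show (g : 𝔾) * ((g : 𝔾)⁻¹ * x * (g : 𝔾)⁻¹⁻¹) * (g : 𝔾)⁻¹ = x
        group
      · rintro _ ⟨x, hx, rfl⟩
        exact U.mul_mem (U.mul_mem g.2 (hLU hx)) (U.inv_mem g.2)
      · obtain ⟨C', hC'⟩ := hLC
        refine ⟨C', ?_⟩
        have h4 := hC'.conj hI (g : 𝔾)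
        have h5 : (L ⊓ Z).map (MulAut.conj (g : 𝔾)).toMonoidHom = Lg ⊓ Z := by
          ext x
          constructor
          · rintro ⟨y, ⟨hy, hyD⟩, rfl⟩
            exact ⟨⟨y, hy, rfl⟩, hZn.conj_mem y hyD g⟩
          · rintro ⟨⟨y, hy, rfl⟩, hyD⟩
            refine ⟨y, ⟨hy, ?_⟩, rfl⟩
            have h6 := hZn.conj_mem _ hyD (g : 𝔾)⁻¹
            have h7 : (g : 𝔾)⁻¹ * ((MulAut.conj (g : 𝔾)).toMonoidHom y) * (g : 𝔾)⁻¹⁻¹ = y := by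
              show (g : 𝔾)⁻¹ * ((g : 𝔾) * y * (g : 𝔾)⁻¹) * (g : 𝔾)⁻¹⁻¹ = y
              group
            rwa [h7] at h6
        rwa [h5] at h4
    refine ⟨Lg ⊓ Z, Finset.mem_image.2 ⟨Lg, hLgm, rfl⟩, fun htop => hco ?_⟩
    have htop' : coinv σ ((Lg ⊓ Z).subgroupOf (U ⊓ Z)) = ⊤ := htop
    rw [eq_top_iff, ← htop', coinv, Submodule.span_le]
    rintro _ ⟨d, hd, v, rfl⟩
    have hdU : (d : 𝔾) ∈ U := d.2.1
    have hdD : (⟨(d : 𝔾), hdU⟩ : U) ∈ D' := d.2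
    have hdS : (⟨(d : 𝔾), hdU⟩ : U) ∈ K' ⊔ D' := le_sup_right (a := K') hdD
    have h4 : σ₁ ⟨⟨(d : 𝔾), hdU⟩, hdS⟩ = σ d := by
      rw [h2 ⟨⟨(d : 𝔾), hdU⟩, hdD⟩ hdS]
      exact hσ₀ ⟨⟨(d : 𝔾), hdU⟩, hdD⟩ d.2
    rw [← h4]
    refine Submodule.subset_span ⟨⟨⟨(d : 𝔾), hdU⟩, hdS⟩, ?_, v, rfl⟩
    obtain ⟨x, hx, hxd⟩ := (hd : (d : 𝔾) ∈ Lg ⊓ Z).1
    refine ⟨⟨x, hLU hx⟩, hx, Subtype.ext ?_⟩
    exact hxd
  have h5 := @main_ineq 𝔾 _ (modTop t Z) (modTop_mul t inferInstance Z) p _ Ω _ I hI (K ⊓ Z)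
    (U ⊓ Z) (inf_le_inf_right _ hKU)
    (fun d hd x hx => ⟨hKn d hd.1 x hx.1, Z.mul_mem (Z.mul_mem hd.2 hx.2) (Z.inv_mem hd.2)⟩)
    ((K ⊓ Z).relIndex (U ⊓ Z)) T.card h3 le_rfl (𝓛.image fun L => L ⊓ Z) (by
      intro L hL
      obtain ⟨M, hM, rfl⟩ := Finset.mem_image.1 hL
      exact ⟨inf_le_inf_right _ ((hmem M).1 hM).1, inf_le_inf_right _ ((hmem M).1 hM).2.1⟩)
    hdet T le_rfl (fun w => (hT w).imp (fun h => le_inf h (inf_le_right.trans inf_le_right)) id)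
    C (by
      intro L hL
      obtain ⟨M, hM, rfl⟩ := Finset.mem_image.1 hL
      exact rank_of_rk hZ (hC M hM))
  exact ⟨_, rk_of_rank hKo h5⟩

end Pool.Agent.K1H12.MV
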