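import Pool.Agent.K1H12.MV.Det
import Pool.Agent.K1H12.MV.Bad

/-!
# Maximal abelian pro-`p` extensions with finitely generated Galois groups
-/

set_option autoImplicit false

namespace Pool.Agent.K1H12.MV

open Subgroup Pool.Agent.Q60.MU IntermediateField Module
open scoped commutatorElement Topology

/-- `M/L` is Galois with an abelian Galois group whose exponent is a power of `p`, on which the
elements of the groups `I w` act trivially. -/
structure AdmI (p : ℕ) {Ω : Type} (I : Ω → Subgroup Gal(Qa/ℚ)) (L M : IntermediateField ℚ Qa) :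
    Prop where
  le : L ≤ M
  normal : ∀ σ ∈ L.fixingSubgroup, ∀ x ∈ M, σ x ∈ M
  comm : ∀ σ ∈ L.fixingSubgroup, ∀ τ ∈ L.fixingSubgroup, ∀ x ∈ M, σ (τ x) = τ (σ x)
  exp : ∃ k, ∀ σ ∈ L.fixingSubgroup, ∀ x ∈ M, (σ ^ p ^ k) x = x
  triv : ∀ w, ∀ σ ∈ I w, σ ∈ L.fixingSubgroup → ∀ x ∈ M, σ x = x

/-- the group theoretic version -/
def GAdm (p : ℕ) {Ω : Type} (I : Ω → Subgroup Gal(Qa/ℚ)) (H W : Subgroup Gal(Qa/ℚ)) : Prop :=
  W ≤ H ∧ (∃ k, ∀ a ∈ H, a ^ p ^ k ∈ W) ∧ (∀ a ∈ H, ∀ b ∈ H, ⁅a, b⁆ ∈ W) ∧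
    ∀ w, ∀ x ∈ I w, x ∈ H → x ∈ W

/-- the compositum of all these extensions -/
noncomputable def maxI (p : ℕ) {Ω : Type} (I : Ω → Subgroup Gal(Qa/ℚ))
    (L : IntermediateField ℚ Qa) : IntermediateField ℚ Qa := sSup {M | AdmI p I L M}

/-- `Gal(K/L)` is topologically finitely generated. -/
def FGal (L K : IntermediateField ℚ Qa) : Prop :=
  ∃ S : Finset Gal(Qa/ℚ), (∀ σ ∈ S, σ ∈ L.fixingSubgroup) ∧
    ∀ x ∈ K, (∀ σ ∈ S, σ x = x) → x ∈ L

variable {p : ℕ} {Ω : Type} {I : Ω → Subgroup Gal(Qa/ℚ)}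

theorem mem_of_fix {M : IntermediateField ℚ Qa} {x : Qa}
    (h : ∀ σ ∈ M.fixingSubgroup, σ x = x) : x ∈ M := by
  rw [← InfiniteGalois.fixedField_fixingSubgroup M, mem_fixedField_iff]
  exact h

theorem fix_fixed {W : Subgroup Gal(Qa/ℚ)} (hW : IsClosed (W : Set Gal(Qa/ℚ))) :
    (fixedField W).fixingSubgroup = W :=
  InfiniteGalois.fixingSubgroup_fixedField ⟨W, hW⟩

theorem fixing_closed (M : IntermediateField ℚ Qa) :
    IsClosed (M.fixingSubgroup : Set Gal(Qa/ℚ)) := InfiniteGalois.fixingSubgroup_isClosed M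

theorem adm_iff {L M : IntermediateField ℚ Qa} :
    AdmI p I L M ↔ GAdm p I L.fixingSubgroup M.fixingSubgroup := by
  constructor
  · intro h
    refine ⟨fixingSubgroup_le h.le, ?_, ?_, ?_⟩
    · obtain ⟨k, hk⟩ := h.exp
      exact ⟨k, fun a ha => (mem_fixingSubgroup_iff _ _).2 fun x hx => hk a ha x hx⟩
    · intro a ha b hb
      refine (mem_fixingSubgroup_iff _ _).2 fun x hx => ?_
      have hb' : b⁻¹ x ∈ M := h.normal _ (inv_mem hb) x hx
      have ha' : a⁻¹ (b⁻¹ x) ∈ M := h.normal _ (inv_mem ha) _ hb'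
      have h6 := h.comm a ha b hb _ ha'
      show ⁅a, b⁆ x = x
      have h7 : ⁅a, b⁆ x = a (b (a⁻¹ (b⁻¹ x))) := rfl
      have h8 : a (a⁻¹ (b⁻¹ x)) = b⁻¹ x := by
        rw [← AlgEquiv.mul_apply, mul_inv_cancel, AlgEquiv.one_apply]
      have h9 : b (b⁻¹ x) = x := by
        rw [← AlgEquiv.mul_apply, mul_inv_cancel, AlgEquiv.one_apply]
      rw [h7, h6, h8, h9]
    · intro w x hx hxH
      exact (mem_fixingSubgroup_iff _ _).2 fun y hy => h.triv w x hx hxH y hy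
  · rintro ⟨h1, ⟨k, h2⟩, h3, h4⟩
    have hfix : ∀ σ ∈ M.fixingSubgroup, ∀ x ∈ M, σ x = x := fun σ hσ x hx =>
      (mem_fixingSubgroup_iff _ _).1 hσ x hx
    refine ⟨?_, ?_, ?_, ⟨k, fun a ha x hx => hfix _ (h2 a ha) x hx⟩,
      fun w x hx hxH y hy => hfix _ (h4 w x hx hxH) y hy⟩
    · intro x hx
      exact mem_of_fix fun σ hσ => (mem_fixingSubgroup_iff _ _).1 (h1 hσ) x hx
    · intro σ hσ x hx
      refine mem_of_fix fun w hw => ?_
      have h5 : ⁅σ⁻¹, w⁆ ∈ M.fixingSubgroup := h3 _ (inv_mem hσ) w (h1 hw)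
      have h6 : w (σ x) = σ ((⁅σ⁻¹, w⁆ * w) x) := by
        rw [← AlgEquiv.mul_apply, ← AlgEquiv.mul_apply]
        congr 1
        rw [commutatorElement_def]
        group
      rw [h6, hfix _ (mul_mem h5 hw) x hx]
    · intro σ hσ τ hτ x hx
      have h5 : ⁅σ⁻¹, τ⁻¹⁆ ∈ M.fixingSubgroup := h3 _ (inv_mem hσ) _ (inv_mem hτ)
      have h6 : σ (τ x) = τ (σ (⁅σ⁻¹, τ⁻¹⁆ x)) := by
        rw [← AlgEquiv.mul_apply, ← AlgEquiv.mul_apply, ← AlgEquiv.mul_apply]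
        congr 1
        rw [commutatorElement_def]
        group
      rw [h6, hfix _ h5 x hx]

theorem GAdm.inf {H W W' : Subgroup Gal(Qa/ℚ)} (h : GAdm p I H W) (h' : GAdm p I H W') :
    GAdm p I H (W ⊓ W') := by
  obtain ⟨h1, ⟨k, h2⟩, h3, h4⟩ := h
  obtain ⟨h1', ⟨k', h2'⟩, h3', h4'⟩ := h'
  refine ⟨inf_le_left.trans h1, ⟨k + k', fun a ha => ⟨?_, ?_⟩⟩, fun a ha b hb =>
    ⟨h3 a ha b hb, h3' a ha b hb⟩, fun w x hx hxH => ⟨h4 w x hx hxH, h4' w x hx hxH⟩⟩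
  · rw [pow_add, pow_mul]
    exact W.pow_mem (h2 a ha) _
  · rw [add_comm, pow_add, pow_mul]
    exact W'.pow_mem (h2' a ha) _

theorem adm_self (L : IntermediateField ℚ Qa) : AdmI p I L L := by
  have h1 : ∀ σ ∈ L.fixingSubgroup, ∀ x ∈ L, σ x = x := fun σ hσ x hx =>
    (mem_fixingSubgroup_iff _ _).1 hσ x hx
  refine ⟨le_rfl, fun σ hσ x hx => ?_, fun σ hσ τ hτ x hx => ?_, ⟨0, fun σ hσ x hx => ?_⟩,
    fun w σ _ hσ x hx => h1 σ hσ x hx⟩
  · rw [h1 σ hσ x hx]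
    exact hx
  · rw [h1 τ hτ x hx, h1 σ hσ x hx, h1 τ hτ x hx]
  · exact h1 _ (pow_mem hσ _) x hx

theorem AdmI.sup {L M M' : IntermediateField ℚ Qa} (h : AdmI p I L M) (h' : AdmI p I L M') :
    AdmI p I L (M ⊔ M') := by
  rw [adm_iff] at h h' ⊢
  rw [fixingSubgroup_sup]
  exact h.inf h'

theorem mem_maxI {L : IntermediateField ℚ Qa} {x : Qa} :
    x ∈ maxI p I L ↔ ∃ M, AdmI p I L M ∧ x ∈ M := by
  constructor
  · intro hx
    have h0 : ∀ x y : Qa, (∃ M, AdmI p I L M ∧ x ∈ M) → (∃ M, AdmI p I L M ∧ y ∈ M) →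
        ∃ M, AdmI p I L M ∧ x ∈ M ∧ y ∈ M := by
      rintro x y ⟨M, h1, h2⟩ ⟨M', h3, h4⟩
      exact ⟨M ⊔ M', h1.sup h3, (le_sup_left : M ≤ M ⊔ M') h2, (le_sup_right : M' ≤ M ⊔ M') h4⟩
    let U : IntermediateField ℚ Qa :=
      { carrier := {x | ∃ M, AdmI p I L M ∧ x ∈ M}
        mul_mem' := fun {x y} hx hy => by
          obtain ⟨M, h1, h2, h3⟩ := h0 x y hx hy
          exact ⟨M, h1, mul_mem h2 h3⟩
        add_mem' := fun {x y} hx hy => by
          obtain ⟨M, h1, h2, h3⟩ := h0 x y hx hy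
          exact ⟨M, h1, add_mem h2 h3⟩
        algebraMap_mem' := fun r => ⟨L, adm_self L, L.algebraMap_mem r⟩
        inv_mem' := fun x ⟨M, h1, h2⟩ => ⟨M, h1, inv_mem h2⟩ }
    have h1 : maxI p I L ≤ U := sSup_le fun M hM x hx => ⟨M, hM, hx⟩
    exact h1 hx
  · rintro ⟨M, h1, h2⟩
    exact (le_sSup (show M ∈ {M | AdmI p I L M} from h1) : M ≤ maxI p I L) h2

theorem closed_mono {𝔾 : Type} [Group 𝔾] [TopologicalSpace 𝔾] [IsTopologicalGroup 𝔾]
    {H W W' : Subgroup 𝔾} (hH : IsClosed (H : Set 𝔾)) (hW : IsClosed (W : Set 𝔾))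
    (hf : W.relIndex H ≠ 0) (h1 : W ≤ W') (h2 : W' ≤ H) : IsClosed (W' : Set 𝔾) := by
  have hfi : (W.subgroupOf H).FiniteIndex := ⟨hf⟩
  have h3 : IsClosed (W.subgroupOf H : Set H) := hW.preimage continuous_subtype_val
  have h4 := (W.subgroupOf H).isOpen_of_isClosed_of_finiteIndex h3
  have h5 : IsOpen (W'.subgroupOf H : Set H) := isOpen_mono (fun x hx => h1 hx) h4
  have h6 := hH.isClosedEmbedding_subtypeVal.isClosedMap _ ((W'.subgroupOf H).isClosed_of_isOpen h5)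
  convert h6 using 1
  ext x
  constructor
  · intro hx
    exact ⟨⟨x, h2 hx⟩, hx, rfl⟩
  · rintro ⟨y, hy, rfl⟩
    exact hy

theorem rk_of_fg [Fact p.Prime] {L : IntermediateField ℚ Qa} (h : FGal L (maxI p I L)) :
    ∃ C, Rk p I L.fixingSubgroup C := by
  classical
  obtain ⟨S, hS, hSx⟩ := h
  refine ⟨p ^ S.card, fun W hW hWc hf hg => ?_⟩
  set H := L.fixingSubgroup with hH
  have hWn : ∀ d ∈ H, ∀ x ∈ W, d * x * d⁻¹ ∈ W := by
    intro d hd x hx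
    have h1 : d * x * d⁻¹ = ⁅d, x⁆ * x := by
      rw [commutatorElement_def]
      group
    rw [h1]
    exact W.mul_mem (hg (Or.inl (Or.inr ⟨d, hd, x, hW hx, rfl⟩))) hx
  obtain ⟨V, i1, i2, i3, ρ, π, hs, ha, h0, hρ⟩ := exists_rep (p := p) (I := I) (le_refl H)
    (fun d hd x hx => H.mul_mem (H.mul_mem hd hx) (H.inv_mem hd)) hf hg hWn
  have hπ1 : π 1 = 0 := (h0 1).2 W.one_mem
  have hπi : ∀ x : H, π x⁻¹ = - π x := by
    intro x
    have h1 : π x + π x⁻¹ = 0 := by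
      rw [← ha, mul_inv_cancel, hπ1]
    exact (neg_eq_of_add_eq_zero_right h1).symm
  -- the index
  let φ : H →* Multiplicative V :=
    { toFun := fun x => Multiplicative.ofAdd (π x)
      map_one' := by
        rw [hπ1]
        rfl
      map_mul' := fun x y => by
        rw [ha]
        rfl }
  have hker : W.subgroupOf H = φ.ker := by
    ext x
    rw [mem_subgroupOf, MonoidHom.mem_ker]
    exact (h0 x).symm
  have hsurj : Function.Surjective φ := by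
    intro y
    obtain ⟨x, hx⟩ := hs (Multiplicative.toAdd y)
    exact ⟨x, congrArg Multiplicative.ofAdd hx⟩
  have hidx : W.relIndex H = p ^ finrank (ZMod p) V := by
    have h4 := Module.natCard_eq_pow_finrank (K := ZMod p) (V := V)
    rw [Nat.card_zmod] at h4
    rw [relIndex, hker, index_ker, MonoidHom.range_eq_top.2 hsurj, card_top, ← h4]
    rfl
  -- the span of the generators
  let e : S → V := fun s => π ⟨s.1, hS s.1 s.2⟩
  set Vs := Submodule.span (ZMod p) (Set.range e) with hVs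
  let W' : Subgroup Gal(Qa/ℚ) :=
    { carrier := {x | ∃ h : x ∈ H, π ⟨x, h⟩ ∈ Vs}
      mul_mem' := by
        rintro a b ⟨h1, h2⟩ ⟨h3, h4⟩
        refine ⟨H.mul_mem h1 h3, ?_⟩
        have h5 : π ⟨a * b, H.mul_mem h1 h3⟩ = π ⟨a, h1⟩ + π ⟨b, h3⟩ := ha ⟨a, h1⟩ ⟨b, h3⟩
        rw [h5]
        exact Vs.add_mem h2 h4
      one_mem' := ⟨H.one_mem, by
        have h5 : π ⟨1, H.one_mem⟩ = 0 := hπ1
        rw [h5]
        exact Vs.zero_mem⟩
      inv_mem' := by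
        rintro a ⟨h1, h2⟩
        refine ⟨H.inv_mem h1, ?_⟩
        have h5 : π ⟨a⁻¹, H.inv_mem h1⟩ = - π ⟨a, h1⟩ := hπi ⟨a, h1⟩
        rw [h5]
        exact Vs.neg_mem h2 }
  have hWW' : W ≤ W' := fun x hx => ⟨hW hx, by
    rw [(h0 ⟨x, hW hx⟩).2 hx]
    exact Vs.zero_mem⟩
  have hW'H : W' ≤ H := fun x hx => hx.1
  have hW'c := closed_mono (fixing_closed L) hWc hf hWW' hW'H
  have hM : AdmI p I L (fixedField W) := by
    rw [adm_iff, fix_fixed hWc]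
    exact ⟨hW, ⟨1, fun a ha => hg (Or.inl (Or.inl ⟨a, ha, by rw [pow_one]⟩))⟩,
      fun a ha b hb => hg (Or.inl (Or.inr ⟨a, ha, b, hb, rfl⟩)),
      fun w x hx hxH => hg (Or.inr ⟨hxH, w, hx⟩)⟩
  have hle : fixedField W' ≤ L := by
    intro x hx
    rw [mem_fixedField_iff] at hx
    refine hSx x (mem_maxI.2 ⟨_, hM, (mem_fixedField_iff _ _).2 fun σ hσ => hx σ (hWW' hσ)⟩)
      fun σ hσ => hx σ ⟨hS σ hσ, Submodule.subset_span ⟨⟨σ, hσ⟩, rfl⟩⟩
  have hHW' : H ≤ W' := by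
    rw [← fix_fixed hW'c]
    exact fixingSubgroup_le hle
  have htop : Vs = ⊤ := by
    rw [eq_top_iff]
    intro v _
    obtain ⟨x, rfl⟩ := hs v
    obtain ⟨_, h2⟩ := hHW' x.2
    exact h2
  rw [hidx]
  refine Nat.pow_le_pow_right (Fact.out : p.Prime).pos ?_
  have h1 := finrank_range_le_card (R := ZMod p) e
  rw [Set.finrank, ← hVs, htop, finrank_top, Fintype.card_coe] at h1
  exact h1

end Pool.Agent.K1H12.MV
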