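import Pool.Agent.K1H12.MV.Arith

/-!
# Frobenius elements and the cyclotomic character
-/

set_option autoImplicit false

namespace Pool.Agent.K1H12.MV

open scoped Pointwise
open IntermediateField

theorem exists_frob {ℓ : ℕ} (hℓ : ℓ.Prime) {P : Ideal Za} (hP : P.IsPrime) (hℓP : (ℓ : Za) ∈ P) :
    ∃ φ : Gal(Qa/ℚ), ∀ x : Za, φ • x - x ^ ℓ ∈ P := by
  have hF : Fact ℓ.Prime := ⟨hℓ⟩
  have hinv : Algebra.IsInvariant ℤ Za Gal(Qa/ℚ) := ⟨fun b hb => by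
    obtain ⟨n, hn⟩ := int_of_fixed b hb
    exact ⟨n, by rw [hn]; simp⟩⟩
  have hchar : CharP (Za ⧸ P) ℓ := by
    refine ⟨fun n => ?_⟩
    have h1 : ((n : ℕ) : Za ⧸ P) = Ideal.Quotient.mk P ((n : ℤ) : Za) := by
      simp
    rw [h1, Ideal.Quotient.eq_zero_iff_mem, int_mem hℓ hP hℓP]
    exact Int.natCast_dvd_natCast
  have hbij : Function.Bijective (frobenius (Za ⧸ P) ℓ) := by
    constructor
    · exact frobenius_inj (Za ⧸ P) ℓ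
    · intro y
      obtain ⟨x, rfl⟩ := Ideal.Quotient.mk_surjective y
      have h1 : IsAlgClosed Qa := AlgebraicClosure.isAlgClosed ℚ
      obtain ⟨z, hz⟩ := IsAlgClosed.exists_pow_nat_eq (x : Qa) hℓ.pos
      have h2 : IsIntegral ℤ z := IsIntegral.of_pow hℓ.pos (by rw [hz]; exact x.2)
      refine ⟨Ideal.Quotient.mk P ⟨z, h2⟩, ?_⟩
      rw [frobenius_def, ← map_pow]
      congr 1
      exact Subtype.ext hz
  let l : (Za ⧸ P) ≃ₐ[ℤ ⧸ P.under ℤ] Za ⧸ P :=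
    { RingEquiv.ofBijective (frobenius (Za ⧸ P) ℓ) hbij with
      commutes' := by
        intro r
        obtain ⟨n, rfl⟩ := Ideal.Quotient.mk_surjective r
        show frobenius (Za ⧸ P) ℓ (algebraMap (ℤ ⧸ P.under ℤ) (Za ⧸ P) (Ideal.Quotient.mk _ n)) =
          algebraMap (ℤ ⧸ P.under ℤ) (Za ⧸ P) (Ideal.Quotient.mk _ n)
        have h1 : algebraMap (ℤ ⧸ P.under ℤ) (Za ⧸ P) (Ideal.Quotient.mk _ n) =
            Ideal.Quotient.mk P (n : Za) := by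
          show Ideal.Quotient.mk P (algebraMap ℤ Za n) = _
          rw [eq_intCast]
        rw [h1, frobenius_def, ← map_pow, Ideal.Quotient.eq]
        have h2 : ((n : Za) ^ ℓ - (n : Za)) = ((n ^ ℓ - n : ℤ) : Za) := by push_cast; rfl
        rw [h2, int_mem hℓ hP hℓP]
        have h3 : ((n ^ ℓ - n : ℤ) : ZMod ℓ) = 0 := by
          push_cast
          rw [ZMod.pow_card, sub_self]
        exact (ZMod.intCast_zmod_eq_zero_iff_dvd _ _).1 h3 }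
  have hlo : P.LiesOver (P.under ℤ) := ⟨rfl⟩
  obtain ⟨σ, hσ⟩ := Ideal.Quotient.stabilizerHom_surjective_of_profinite (G := Gal(Qa/ℚ))
    (P.under ℤ) P l
  refine ⟨σ, fun x => ?_⟩
  rw [← Ideal.Quotient.eq]
  exact DFunLike.congr_fun hσ (Ideal.Quotient.mk P x)

/-- the elements which fix all the `p ^ k`-th roots of unity -/
def Gk (p k : ℕ) : Subgroup Gal(Qa/ℚ) where
  carrier := {σ | ∀ ζ : Qa, ζ ^ p ^ k = 1 → σ ζ = ζ}
  mul_mem' := by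
    intro a b ha hb ζ hζ
    rw [AlgEquiv.mul_apply, hb ζ hζ, ha ζ hζ]
  one_mem' := fun ζ _ => rfl
  inv_mem' := by
    intro a ha ζ hζ
    have h1 : a⁻¹ (a ζ) = ζ := by
      rw [← AlgEquiv.mul_apply, inv_mul_cancel, AlgEquiv.one_apply]
    rw [ha ζ hζ] at h1
    exact h1

theorem mem_Gk {p k : ℕ} {σ : Gal(Qa/ℚ)} : σ ∈ Gk p k ↔ ∀ ζ : Qa, ζ ^ p ^ k = 1 → σ ζ = ζ :=
  Iff.rfl

theorem Gk_antitone {p j k : ℕ} (h : j ≤ k) : Gk p k ≤ Gk p j := by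
  intro σ hσ ζ hζ
  apply hσ
  rw [← Nat.add_sub_of_le h, pow_add, pow_mul, hζ, one_pow]

theorem Gk_closed (p k : ℕ) : IsClosed (Gk p k : Set Gal(Qa/ℚ)) := by
  have h1 : (Gk p k : Set Gal(Qa/ℚ)) = ⋂ ζ : Qa, ⋂ _ : ζ ^ p ^ k = 1, {σ | σ ζ = ζ} := by
    ext σ
    rw [Set.mem_iInter]
    simp only [Set.mem_iInter]
    rfl
  rw [h1]
  refine isClosed_iInter fun ζ => isClosed_iInter fun _ => ?_
  have h2 := (MulAction.stabilizer Gal(Qa/ℚ) ζ).isClosed_of_isOpen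
    (stabilizer_isOpen_of_isIntegral (K := ℚ) (L := Qa) ζ)
  exact h2

theorem Gk_normal (p k : ℕ) : (Gk p k).Normal := by
  refine ⟨fun σ hσ g ζ hζ => ?_⟩
  have h1 : (g⁻¹ ζ) ^ p ^ k = 1 := by
    rw [← map_pow, hζ, map_one]
  show g (σ (g⁻¹ ζ)) = ζ
  rw [hσ _ h1, ← AlgEquiv.mul_apply, mul_inv_cancel, AlgEquiv.one_apply]

theorem exists_zeta (n : ℕ) (hn : n ≠ 0) : ∃ ζ : Qa, IsPrimitiveRoot ζ n := by
  have h1 : IsAlgClosed Qa := AlgebraicClosure.isAlgClosed ℚ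
  have h2 : NeZero (n : Qa) := ⟨Nat.cast_ne_zero.2 hn⟩
  obtain ⟨ζ, hζ⟩ := HasEnoughRootsOfUnity.exists_primitiveRoot Qa n
  exact ⟨ζ, hζ⟩

/-- the cyclotomic character modulo `p ^ k` -/
theorem exists_chi {p : ℕ} (hp : p.Prime) (k : ℕ) :
    ∃ χ : Gal(Qa/ℚ) →* (ZMod (p ^ k))ˣ, (∀ σ, χ σ = 1 → σ ∈ Gk p k) ∧
      ∀ (σ : Gal(Qa/ℚ)) (m : ℕ), (∀ ζ : Qa, ζ ^ p ^ k = 1 → σ ζ = ζ ^ m) →
        ((χ σ : (ZMod (p ^ k))ˣ) : ZMod (p ^ k)) = (m : ZMod (p ^ k)) := by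
  have hn : p ^ k ≠ 0 := pow_ne_zero _ hp.ne_zero
  have hne : NeZero (p ^ k) := ⟨hn⟩
  obtain ⟨ζ, hζ⟩ := exists_zeta (p ^ k) hn
  refine ⟨hζ.autToPow ℚ, fun σ h => ?_, fun σ m hm => ?_⟩
  · have h1 := hζ.autToPow_spec ℚ σ
    intro ξ hξ
    obtain ⟨i, hi, rfl⟩ := hζ.eq_pow_of_pow_eq_one hξ
    rw [map_pow, ← h1, h, Units.val_one]
    congr 1
    by_cases h2 : p ^ k = 1
    · have h4 : ζ = 1 := by
        have h5 := hζ.pow_eq_one
        rwa [h2, pow_one] at h5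
      rw [h4, one_pow]
    · have h3 : Fact (1 < p ^ k) := ⟨by omega⟩
      rw [ZMod.val_one, pow_one]
  · have h1 := hζ.autToPow_spec ℚ σ
    rw [hm ζ hζ.pow_eq_one] at h1
    have h2 : ζ ^ m = ζ ^ (m % p ^ k) := by
      conv_lhs => rw [← Nat.div_add_mod m (p ^ k)]
      rw [pow_add, pow_mul, hζ.pow_eq_one, one_pow, one_mul]
    rw [h2] at h1
    have h3 := hζ.pow_inj (ZMod.val_lt _) (Nat.mod_lt _ (Nat.pos_of_ne_zero hn)) h1
    have h4 := congrArg (fun z : ℕ => (z : ZMod (p ^ k))) h3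
    simp only [ZMod.natCast_mod] at h4
    rw [← h4, ZMod.natCast_val, ZMod.cast_id]

end Pool.Agent.K1H12.MV
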