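import Pool.Agent.K1H12.MV.Ext

/-!
# Bounded ranks imply finite generation
-/

set_option autoImplicit false

namespace Pool.Agent.K1H12.MV

open Subgroup Pool.Agent.Q60.MU IntermediateField Module
open scoped commutatorElement Topology

variable {p : ℕ} {Ω : Type} {I : Ω → Subgroup Gal(Qa/ℚ)}

/-- In a group of exponent `p ^ k` which is abelian and nontrivial, the `p`-th powers form a
proper subgroup. -/
theorem pow_not_surj {A : Type} [CommGroup A] {k : ℕ} (h : ∀ a : A, a ^ p ^ k = 1)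
    (hs : ∀ a : A, ∃ b : A, b ^ p = a) (a : A) : a = 1 := by
  have h1 : ∀ j, ∀ a : A, ∃ b : A, b ^ p ^ j = a := by
    intro j
    induction j with
    | zero => exact fun a => ⟨a, by rw [pow_zero, pow_one]⟩
    | succ j ih =>
      intro a
      obtain ⟨b, rfl⟩ := hs a
      obtain ⟨c, rfl⟩ := ih b
      exact ⟨c, by rw [pow_succ, pow_mul]⟩
  obtain ⟨b, rfl⟩ := h1 k a
  exact h b

theorem exists_proper {𝔾 : Type} [Group 𝔾] {H U : Subgroup 𝔾} (hU : U ≤ H) (hne : U ≠ H)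
    {k : ℕ} (hexp : ∀ a ∈ H, a ^ p ^ k ∈ U) (hcomm : ∀ a ∈ H, ∀ b ∈ H, ⁅a, b⁆ ∈ U) :
    ∃ W : Subgroup 𝔾, U ≤ W ∧ W ≤ H ∧ W ≠ H ∧ ∀ a ∈ H, a ^ p ∈ W := by
  classical
  have hN : (U.subgroupOf H).Normal := by
    refine ⟨fun x hx g => ?_⟩
    show ((g * x * g⁻¹ : H) : 𝔾) ∈ U
    have h1 : ((g * x * g⁻¹ : H) : 𝔾) = ⁅(g : 𝔾), (x : 𝔾)⁆ * x := by
      rw [commutatorElement_def]
      push_cast
      group
    rw [h1]
    exact U.mul_mem (hcomm g g.2 x x.2) hx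
  let cg : CommGroup (H ⧸ U.subgroupOf H) :=
    { (inferInstance : Group (H ⧸ U.subgroupOf H)) with
      mul_comm := by
        intro a b
        obtain ⟨x, rfl⟩ := QuotientGroup.mk_surjective a
        obtain ⟨y, rfl⟩ := QuotientGroup.mk_surjective b
        refine QuotientGroup.eq.2 ?_
        have h1 : (((x * y)⁻¹ * (y * x) : H) : 𝔾) = ⁅((y⁻¹ : H) : 𝔾), ((x⁻¹ : H) : 𝔾)⁆ := by
          rw [commutatorElement_def]
          push_cast
          group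
        show (((x * y)⁻¹ * (y * x) : H) : 𝔾) ∈ U
        rw [h1]
        exact hcomm _ (y⁻¹).2 _ (x⁻¹).2 }
  let q : H →* H ⧸ U.subgroupOf H := QuotientGroup.mk' (U.subgroupOf H)
  have hq1 : ∀ x, q x = 1 ↔ (x : 𝔾) ∈ U := fun x => QuotientGroup.eq_one_iff x
  have hqs : Function.Surjective q := QuotientGroup.mk'_surjective _
  let W : Subgroup 𝔾 := (((powMonoidHom p : H ⧸ U.subgroupOf H →* H ⧸ U.subgroupOf H).range).comap
    q).map H.subtype
  have hW : ∀ x, x ∈ W ↔ ∃ h : x ∈ H, ∃ b : H ⧸ U.subgroupOf H, b ^ p = q ⟨x, h⟩ := by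
    intro x
    constructor
    · rintro ⟨y, ⟨b, hb⟩, rfl⟩
      exact ⟨y.2, b, hb⟩
    · rintro ⟨h, b, hb⟩
      exact ⟨⟨x, h⟩, ⟨b, hb⟩, rfl⟩
  refine ⟨W, fun x hx => ?_, fun x hx => ((hW x).1 hx).1, fun h => hne ?_, fun a ha => ?_⟩
  · rw [hW]
    refine ⟨hU hx, 1, ?_⟩
    rw [one_pow, (hq1 ⟨x, hU hx⟩).2 hx]
  · apply le_antisymm hU
    intro x hx
    have h1 := pow_not_surj (p := p) (k := k) (A := H ⧸ U.subgroupOf H) (by
      intro a
      obtain ⟨y, rfl⟩ := hqs a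
      rw [← map_pow, hq1]
      exact hexp y y.2) (by
      intro a
      obtain ⟨y, rfl⟩ := hqs a
      have h2 : (y : 𝔾) ∈ W := by
        rw [h]
        exact y.2
      obtain ⟨_, b, hb⟩ := (hW y).1 h2
      exact ⟨b, hb⟩) (q ⟨x, hx⟩)
    exact (hq1 _).1 h1
  · rw [hW]
    exact ⟨H.pow_mem ha p, q ⟨a, ha⟩, (map_pow q ⟨a, ha⟩ p).symm⟩

theorem fg_of_rk {L : IntermediateField ℚ Qa} {C : ℕ}
    (h : Rk p I L.fixingSubgroup C) : FGal L (maxI p I L) := by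
  classical
  set H := L.fixingSubgroup with hH
  have hHc : IsClosed (H : Set Gal(Qa/ℚ)) := fixing_closed L
  let Adm : Subgroup Gal(Qa/ℚ) → Prop := fun W => W ≤ H ∧ IsClosed (W : Set Gal(Qa/ℚ)) ∧
    W.relIndex H ≠ 0 ∧ gens p I H ⊆ W
  have hadmH : Adm H := ⟨le_rfl, hHc, by rw [relIndex_self]; exact one_ne_zero, gens_subset⟩
  obtain ⟨W₀, hW₀, hmax⟩ : ∃ W₀, Adm W₀ ∧ ∀ W, Adm W → W.relIndex H ≤ W₀.relIndex H := by
    have h1 : {n | ∃ W, Adm W ∧ W.relIndex H = n}.Finite :=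
      (Set.finite_Iic C).subset (by
        rintro _ ⟨W, hW, rfl⟩
        exact h W hW.1 hW.2.1 hW.2.2.1 hW.2.2.2)
    obtain ⟨_, ⟨W₀, hW₀, rfl⟩, h2⟩ := Set.exists_max_image _ id h1 ⟨_, ⟨H, hadmH, rfl⟩⟩
    exact ⟨W₀, hW₀, fun W hW => h2 _ ⟨W, hW, rfl⟩⟩
  obtain ⟨hW₀H, hW₀c, hW₀f, hW₀g⟩ := hW₀
  have hmin : ∀ W, Adm W → W₀ ≤ W := by
    rintro W ⟨h1, h2, h3, h4⟩
    have h5 : (W ⊓ W₀).relIndex H ≠ 0 := relIndex_inf_ne_zero h3 hW₀f
    have h6 := hmax (W ⊓ W₀) ⟨inf_le_left.trans h1, by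
      rw [Subgroup.coe_inf]
      exact h2.inter hW₀c, h5, fun x hx => ⟨h4 hx, hW₀g hx⟩⟩
    have h7 := relIndex_mul_relIndex (W ⊓ W₀) W₀ H inf_le_right hW₀H
    have h8 : (W ⊓ W₀).relIndex W₀ = 1 := by
      have h9 : (W ⊓ W₀).relIndex W₀ ≠ 0 := by
        intro h10
        rw [h10, zero_mul] at h7
        exact h5 h7.symm
      have h10 := Nat.pos_of_ne_zero hW₀f
      by_contra h11
      have h12 : 2 * W₀.relIndex H ≤ (W ⊓ W₀).relIndex W₀ * W₀.relIndex H :=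
        Nat.mul_le_mul_right _ (by omega)
      omega
    exact (relIndex_eq_one.1 h8).trans inf_le_left
  have hfi : (W₀.subgroupOf H).FiniteIndex := ⟨hW₀f⟩
  have hfin : Fintype (H ⧸ W₀.subgroupOf H) := Fintype.ofFinite _
  refine ⟨Finset.univ.image fun q : H ⧸ W₀.subgroupOf H => ((q.out : H) : Gal(Qa/ℚ)), ?_, ?_⟩
  · intro σ hσ
    obtain ⟨q, -, rfl⟩ := Finset.mem_image.1 hσ
    exact q.out.2
  · intro x hx hfix
    obtain ⟨M, hM, hxM⟩ := mem_maxI.1 hx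
    rw [adm_iff] at hM
    obtain ⟨h1, ⟨k, h2⟩, h3, h4⟩ := hM
    let St : Subgroup Gal(Qa/ℚ) := MulAction.stabilizer Gal(Qa/ℚ) x
    have hSto : IsOpen (St : Set Gal(Qa/ℚ)) := stabilizer_isOpen_of_isIntegral (K := ℚ) (L := Qa) x
    have hStc : IsClosed (St : Set Gal(Qa/ℚ)) := St.isClosed_of_isOpen hSto
    have hStf : St.FiniteIndex := by
      have h5 : Finite (Gal(Qa/ℚ) ⧸ St) := St.quotient_finite_of_isOpen hSto
      exact Subgroup.finiteIndex_of_finite_quotient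
    have hMS : M.fixingSubgroup ≤ St := fun σ hσ => (mem_fixingSubgroup_iff _ _).1 hσ x hxM
    set U := H ⊓ St with hU
    have hMU : M.fixingSubgroup ≤ U := le_inf h1 hMS
    suffices hUH : U = H by
      refine mem_of_fix fun σ hσ => ?_
      have h5 : σ ∈ U := by
        rw [hUH]
        exact hσ
      exact h5.2
    by_contra hne
    obtain ⟨W, hUW, hWH, hWne, hWp⟩ := exists_proper (p := p) (inf_le_left : U ≤ H) hne
      (fun a ha => hMU (h2 a ha)) (fun a ha b hb => hMU (h3 a ha b hb))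
    have hUf : U.relIndex H ≠ 0 := by
      rw [hU, inf_comm, inf_relIndex_right]
      exact (inferInstance : (St.subgroupOf H).FiniteIndex).index_ne_zero
    have hUc : IsClosed (U : Set Gal(Qa/ℚ)) := by
      rw [hU, Subgroup.coe_inf]
      exact hHc.inter hStc
    have hW := hmin W ⟨hWH, closed_mono hHc hUc hUf hUW hWH, by
      intro h5
      have h6 := relIndex_mul_relIndex U W H hUW hWH
      rw [h5, mul_zero] at h6
      exact hUf h6.symm, by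
      rintro y ((⟨a, ha, rfl⟩ | ⟨a, ha, b, hb, rfl⟩) | ⟨hy, w, hw⟩)
      · exact hWp a ha
      · exact hUW (hMU (h3 a ha b hb))
      · exact hUW (hMU (h4 w y hw hy))⟩
    apply hWne
    apply le_antisymm hWH
    intro σ hσ
    obtain ⟨w, hw⟩ := QuotientGroup.mk_out_eq_mul (W₀.subgroupOf H) (⟨σ, hσ⟩ : H)
    have h5 : ((((⟨σ, hσ⟩ : H) : H ⧸ W₀.subgroupOf H).out : H) : Gal(Qa/ℚ)) ∈ U :=
      ⟨SetLike.coe_mem _, hfix _ (Finset.mem_image.2 ⟨_, Finset.mem_univ _, rfl⟩)⟩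
    have h6 : σ = ((((⟨σ, hσ⟩ : H) : H ⧸ W₀.subgroupOf H).out : H) : Gal(Qa/ℚ)) *
        (((w : H) : Gal(Qa/ℚ)))⁻¹ := by
      rw [hw]
      push_cast
      group
    rw [h6]
    exact W.mul_mem (hUW h5) (W.inv_mem (hW w.2))

theorem fg_iff [Fact p.Prime] {L : IntermediateField ℚ Qa} :
    FGal L (maxI p I L) ↔ ∃ C, Rk p I L.fixingSubgroup C :=
  ⟨rk_of_fg, fun ⟨_, h⟩ => fg_of_rk h⟩

end Pool.Agent.K1H12.MV
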