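import Pool.Agent.K1H12.MV.Dec

/-!
# Finitely many primes above each prime number in the cyclotomic tower
-/

set_option autoImplicit false

namespace Pool.Agent.K1H12.MV

open scoped Pointwise
open IntermediateField Subgroup

theorem compact_dec {𝔾 : Type} [Group 𝔾] [TopologicalSpace 𝔾] [IsTopologicalGroup 𝔾]
    [CompactSpace 𝔾] (G : ℕ → Subgroup 𝔾) (hG : Antitone G) (hn : ∀ k, (G k).Normal)
    (hc : ∀ k, IsClosed (G k : Set 𝔾)) (S : Subgroup 𝔾) (hS : IsClosed (S : Set 𝔾)) {t : ℕ}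
    (ht : ∀ k, (S ⊔ G k).index ≠ 0 ∧ (S ⊔ G k).index ≤ t) :
    ∃ R : Finset 𝔾, ∀ g, ∃ r ∈ R, ∃ n ∈ ⨅ k, G k, ∃ s ∈ S, g = n * r * s := by
  classical
  obtain ⟨k₀, hk₀⟩ : ∃ k₀, ∀ k, (S ⊔ G k).index ≤ (S ⊔ G k₀).index := by
    have h1 : (Set.range fun k => (S ⊔ G k).index).Finite :=
      (Set.finite_Iic t).subset (by
        rintro _ ⟨k, rfl⟩
        exact (ht k).2)
    obtain ⟨_, ⟨k₀, rfl⟩, h2⟩ := Set.exists_max_image _ id h1 ⟨_, ⟨0, rfl⟩⟩
    exact ⟨k₀, fun k => h2 _ ⟨k, rfl⟩⟩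
  have hB : ∀ k, S ⊔ G k₀ ≤ S ⊔ G k := by
    intro k
    rcases le_total k k₀ with h | h
    · exact sup_le_sup_left (hG h) _
    · have h1 : S ⊔ G k ≤ S ⊔ G k₀ := sup_le_sup_left (hG h) _
      have h2 := relIndex_mul_index h1
      have h3 : (S ⊔ G k).relIndex (S ⊔ G k₀) = 1 := by
        have h4 := hk₀ k
        rw [← h2] at h4
        have h5 := Nat.pos_of_ne_zero (ht k₀).1
        have h6 : (S ⊔ G k).relIndex (S ⊔ G k₀) ≠ 0 := by
          intro h7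
          rw [h7, zero_mul] at h2
          exact (ht k).1 h2.symm
        have h7 : (S ⊔ G k).relIndex (S ⊔ G k₀) ≤ 1 := by
          by_contra h8
          have h9 : 2 * (S ⊔ G k₀).index ≤ (S ⊔ G k).relIndex (S ⊔ G k₀) * (S ⊔ G k₀).index :=
            Nat.mul_le_mul_right _ (by omega)
          omega
        omega
      exact relIndex_eq_one.1 h3
  have hfi : (S ⊔ G k₀).FiniteIndex := ⟨(ht k₀).1⟩
  have hfin : Fintype (𝔾 ⧸ (S ⊔ G k₀)) := Fintype.ofFinite _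
  refine ⟨Finset.univ.image fun q : 𝔾 ⧸ (S ⊔ G k₀) => q.out, fun g => ?_⟩
  obtain ⟨b, hb⟩ := QuotientGroup.mk_out_eq_mul (S ⊔ G k₀) g
  set r := ((g : 𝔾) : 𝔾 ⧸ (S ⊔ G k₀)).out with hr
  have hb' : ∀ k, (b : 𝔾)⁻¹ ∈ S ⊔ G k := fun k => hB k (inv_mem b.2)
  let C : ℕ → Set 𝔾 := fun k => {s | s ∈ S ∧ (b : 𝔾)⁻¹ * s⁻¹ ∈ G k}
  have hC : (⋂ k, C k).Nonempty := by
    have hcl : ∀ k, IsClosed (C k) := fun k =>
      hS.inter ((hc k).preimage (continuous_const.mul continuous_inv))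
    refine IsCompact.nonempty_iInter_of_sequence_nonempty_isCompact_isClosed C ?_ ?_ ?_ hcl
    · rintro k s ⟨h1, h2⟩
      exact ⟨h1, hG (Nat.le_succ k) h2⟩
    · intro k
      have := hn k
      obtain ⟨s, hs, n, hn', h⟩ := mem_sup_of_normal_right.1 (hb' k)
      refine ⟨s, hs, ?_⟩
      rw [← h]
      exact (hn k).conj_mem n hn' s
    · exact (hcl 0).isCompact
  obtain ⟨s, hs⟩ := hC
  rw [Set.mem_iInter] at hs
  refine ⟨r, Finset.mem_image.2 ⟨_, Finset.mem_univ _, rfl⟩, r * ((b : 𝔾)⁻¹ * s⁻¹) * r⁻¹, ?_, s,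
    (hs 0).1, ?_⟩
  · rw [mem_iInf]
    intro k
    exact (hn k).conj_mem _ (hs k).2 r
  · rw [hb]
    group

theorem stabilizer_closed (P : Ideal Za) :
    IsClosed (MulAction.stabilizer Gal(Qa/ℚ) P : Set Gal(Qa/ℚ)) := by
  have h1 : (MulAction.stabilizer Gal(Qa/ℚ) P : Set Gal(Qa/ℚ)) =
      ⋂ x : Za, {σ | x ∈ P ↔ σ • x ∈ P} := by
    ext σ
    rw [Set.mem_iInter]
    constructor
    · intro h x
      have h2 : σ • P = P := h
      show x ∈ P ↔ σ • x ∈ P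
      conv_rhs => rw [← h2]
      exact Ideal.smul_mem_pointwise_smul_iff.symm
    · intro h
      show σ • P = P
      ext x
      rw [Ideal.mem_pointwise_smul_iff_inv_smul_mem]
      have h2 := h (σ⁻¹ • x)
      rw [Set.mem_ofPred_eq, smul_inv_smul] at h2
      exact h2
  rw [h1]
  refine isClosed_iInter fun x => ?_
  have h2 : Continuous fun σ : Gal(Qa/ℚ) => σ • x := continuous_id.smul continuous_const
  exact (isClosed_discrete {y : Za | x ∈ P ↔ y ∈ P}).preimage h2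

/-- the elements which fix all the roots of unity of `p`-power order -/
noncomputable def Ginf (p : ℕ) : Subgroup Gal(Qa/ℚ) := ⨅ k, Gk p k

theorem Ginf_normal (p : ℕ) : (Ginf p).Normal := normal_iInf_normal fun k => Gk_normal p k

theorem Ginf_closed (p : ℕ) : IsClosed (Ginf p : Set Gal(Qa/ℚ)) := by
  rw [Ginf, Subgroup.coe_iInf]
  exact isClosed_iInter fun k => Gk_closed p k

/-- The primes above `ℓ` form finitely many orbits under `H`. -/
def FinOrb (H : Subgroup Gal(Qa/ℚ)) (ℓ : ℕ) : Prop :=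
  ∃ T : Finset (Ideal Za), ∀ P : Ideal Za, P.IsPrime → (ℓ : Za) ∈ P →
    ∃ Q ∈ T, ∃ n ∈ H, P = n • Q

theorem finOrb_ne {p ℓ : ℕ} (hp : p.Prime) (hℓ : ℓ.Prime) (hne : ℓ ≠ p) :
    FinOrb (Ginf p) ℓ := by
  classical
  obtain ⟨P₀, hP₀, hℓP₀⟩ := exists_above hℓ
  obtain ⟨φ, hφ⟩ := exists_frob hℓ hP₀ hℓP₀
  obtain ⟨t, ht⟩ := index_bound hp hℓ hne
  have hφS : φ ∈ MulAction.stabilizer Gal(Qa/ℚ) P₀ := by
    show φ • P₀ = P₀
    have h1 : ∀ x, φ • x ∈ P₀ ↔ x ∈ P₀ := by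
      intro x
      have h2 := hφ x
      constructor
      · intro h
        have h3 : x ^ ℓ ∈ P₀ := by
          have h4 := P₀.sub_mem h h2
          rwa [sub_sub_cancel] at h4
        exact hP₀.mem_of_pow_mem ℓ h3
      · intro h
        have h3 : x ^ ℓ ∈ P₀ := P₀.pow_mem_of_mem h ℓ hℓ.pos
        have h4 := P₀.add_mem h2 h3
        rwa [sub_add_cancel] at h4
    ext x
    rw [Ideal.mem_pointwise_smul_iff_inv_smul_mem, ← h1, smul_inv_smul]
  obtain ⟨R, hR⟩ := compact_dec (Gk p) (fun j k h => Gk_antitone h) (Gk_normal p) (Gk_closed p)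
    (MulAction.stabilizer Gal(Qa/ℚ) P₀) (stabilizer_closed P₀) (t := t) (fun k =>
      ht φ (fun k ζ hζ => frob_zeta hp hℓ hne hP₀ hℓP₀ hφ k ζ hζ) k _ le_sup_right
        (le_sup_left (b := Gk p k) hφS))
  refine ⟨R.image fun r => r • P₀, fun P hP hℓP => ?_⟩
  obtain ⟨g, rfl⟩ := trans_int hℓ hP₀ hP hℓP₀ hℓP
  obtain ⟨r, hr, n, hn, s, hs, rfl⟩ := hR g
  refine ⟨r • P₀, Finset.mem_image.2 ⟨r, hr, rfl⟩, n, hn, ?_⟩
  rw [mul_smul, mul_smul]
  congr 2

/-- an algebraic integer which is fixed by `Ginf` lies in `ℤ[ζ]` -/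
theorem mem_adjoin_of_fixed {p : ℕ} (hp : p.Prime) (x : Za) (hx : ∀ σ ∈ Ginf p, σ • x = x) :
    ∃ (k : ℕ) (ζ : Qa), ζ ^ p ^ k = 1 ∧ (x : Qa) ∈ Algebra.adjoin ℤ {ζ} := by
  obtain ⟨k, hk⟩ : ∃ k, ∀ σ ∈ Gk p k, σ (x : Qa) = x := by
    by_contra hcon
    push Not at hcon
    let C : ℕ → Set Gal(Qa/ℚ) := fun k => {σ | σ ∈ Gk p k ∧ σ (x : Qa) ≠ x}
    have hcl : ∀ k, IsClosed (C k) := fun k =>
      (Gk_closed p k).inter (isClosed_compl_iff.2 (stab_open (x : Qa)))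
    have hC : (⋂ k, C k).Nonempty := by
      refine IsCompact.nonempty_iInter_of_sequence_nonempty_isCompact_isClosed C ?_ ?_ ?_ hcl
      · rintro k s ⟨h1, h2⟩
        exact ⟨Gk_antitone (Nat.le_succ k) h1, h2⟩
      · intro k
        obtain ⟨σ, h1, h2⟩ := hcon k
        exact ⟨σ, h1, h2⟩
      · exact (hcl 0).isCompact
    obtain ⟨σ, hσ⟩ := hC
    rw [Set.mem_iInter] at hσ
    refine (hσ 0).2 ?_
    have h1 : σ ∈ Ginf p := by
      rw [Ginf, mem_iInf]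
      exact fun k => (hσ k).1
    exact congrArg Subtype.val (hx σ h1)
  have hF : Fact p.Prime := ⟨hp⟩
  have hn : p ^ k ≠ 0 := pow_ne_zero _ hp.ne_zero
  have hne : NeZero (p ^ k) := ⟨hn⟩
  obtain ⟨ζ, hζ⟩ := exists_zeta (p ^ k) hn
  refine ⟨k, ζ, hζ.pow_eq_one, ?_⟩
  have hmem : ζ ∈ IntermediateField.adjoin ℚ ({ζ} : Set Qa) :=
    IntermediateField.subset_adjoin ℚ _ (Set.mem_singleton ζ)
  have hxK : (x : Qa) ∈ IntermediateField.adjoin ℚ ({ζ} : Set Qa) := by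
    rw [← InfiniteGalois.fixedField_fixingSubgroup (IntermediateField.adjoin ℚ ({ζ} : Set Qa)),
      mem_fixedField_iff]
    intro σ hσ
    refine hk σ ?_
    intro ξ hξ
    obtain ⟨i, -, rfl⟩ := hζ.eq_pow_of_pow_eq_one hξ
    rw [map_pow, (mem_fixingSubgroup_iff _ _).1 hσ ζ hmem]
  have hcyc : IsCyclotomicExtension {p ^ k} ℚ (IntermediateField.adjoin ℚ ({ζ} : Set Qa)) :=
    hζ.intermediateField_adjoin_isCyclotomicExtension ℚ
  have hζ' : IsPrimitiveRoot (⟨ζ, hmem⟩ : IntermediateField.adjoin ℚ ({ζ} : Set Qa)) (p ^ k) := by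
    refine IsPrimitiveRoot.of_map_of_injective (f := algebraMap _ Qa) ?_
      (algebraMap (IntermediateField.adjoin ℚ ({ζ} : Set Qa)) Qa).injective
    exact hζ
  have hic := IsCyclotomicExtension.Rat.isIntegralClosure_adjoin_singleton_of_prime_pow hζ'
  have hxi : IsIntegral ℤ (⟨x, hxK⟩ : IntermediateField.adjoin ℚ ({ζ} : Set Qa)) := by
    have h1 : IsIntegral ℤ (algebraMap (IntermediateField.adjoin ℚ ({ζ} : Set Qa)) Qa ⟨x, hxK⟩) := x.2
    exact (isIntegral_algebraMap_iff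
      (algebraMap (IntermediateField.adjoin ℚ ({ζ} : Set Qa)) Qa).injective).1 h1
  obtain ⟨y, hy⟩ := hic.isIntegral_iff.1 hxi
  have h1 : (algebraMap (IntermediateField.adjoin ℚ ({ζ} : Set Qa)) Qa ⟨x, hxK⟩) = (x : Qa) := rfl
  obtain ⟨q, hq⟩ : ∃ q : Polynomial ℤ, Polynomial.aeval
      (⟨ζ, hmem⟩ : IntermediateField.adjoin ℚ ({ζ} : Set Qa)) q = y.1 := by
    obtain ⟨y, h2⟩ := y
    rw [Algebra.adjoin_singleton_eq_range_aeval] at h2
    exact h2
  rw [Algebra.adjoin_singleton_eq_range_aeval]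
  refine ⟨q, ?_⟩
  have h3 : (⟨x, hxK⟩ : IntermediateField.adjoin ℚ ({ζ} : Set Qa)) = Polynomial.aeval
      (⟨ζ, hmem⟩ : IntermediateField.adjoin ℚ ({ζ} : Set Qa)) q := by
    rw [← hy]
    exact hq.symm
  rw [← h1, h3]
  exact (Polynomial.aeval_algebraMap_apply Qa
    (⟨ζ, hmem⟩ : IntermediateField.adjoin ℚ ({ζ} : Set Qa)) q)

theorem finOrb_eq {p : ℕ} (hp : p.Prime) : FinOrb (Ginf p) p := by
  classical
  obtain ⟨P₀, hP₀, hℓP₀⟩ := exists_above hp
  refine ⟨{P₀}, fun P hP hℓP => ⟨P₀, Finset.mem_singleton_self _, ?_⟩⟩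
  refine trans_of_under (Ginf p) (Ginf_closed p) P₀ P hP₀ hP fun x hx => ?_
  obtain ⟨k, ζ, hζ, hxζ⟩ := mem_adjoin_of_fixed hp x hx
  have hint : IsIntegral ℤ ζ :=
    IsIntegral.of_pow (pow_pos hp.pos k) (by rw [hζ]; exact isIntegral_one)
  set z : Za := ⟨ζ, hint⟩ with hz
  have hzn : z ^ p ^ k = 1 := Subtype.ext hζ
  have key : ∀ g : Gal(Qa/ℚ), g • x - x ∈ P₀ := by
    intro g
    have h1 : g • z - z ∈ P₀ := by
      have h2 : ∀ y : Za, y ^ p ^ k = 1 → y - 1 ∈ P₀ := by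
        intro y hy
        have h3 : (y - 1) ^ p ^ k ∈ P₀ := by
          have h4 : CharP (Za ⧸ P₀) p := by
            refine ⟨fun n => ?_⟩
            have h1 : ((n : ℕ) : Za ⧸ P₀) = Ideal.Quotient.mk P₀ ((n : ℤ) : Za) := by simp
            rw [h1, Ideal.Quotient.eq_zero_iff_mem, int_mem hp hP₀ hℓP₀]
            exact Int.natCast_dvd_natCast
          have h5 : Fact p.Prime := ⟨hp⟩
          rw [← Ideal.Quotient.eq_zero_iff_mem, map_pow, map_sub, sub_pow_char_pow, ← map_pow, hy,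
            map_one, one_pow, sub_self]
        exact hP₀.mem_of_pow_mem _ h3
      have h3 : g • z - z = (g • z - 1) - (z - 1) := by ring
      rw [h3]
      refine P₀.sub_mem (h2 _ ?_) (h2 _ hzn)
      rw [← smul_pow', hzn, smul_one]
    rw [Algebra.adjoin_singleton_eq_range_aeval] at hxζ
    obtain ⟨q, hq⟩ : ∃ q : Polynomial ℤ, Polynomial.aeval ζ q = (x : Qa) := hxζ
    have h4 : x = Polynomial.aeval z q := by
      apply Subtype.ext
      rw [← hq]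
      have h5 := Polynomial.aeval_algHom_apply (Subalgebra.val Za) z q
      exact h5
    have h5 : g • x = Polynomial.aeval (g • z) q := by
      rw [h4]
      have h6 := Polynomial.aeval_algHom_apply (MulSemiringAction.toAlgHom ℤ Za g) z q
      exact h6.symm
    rw [h5, h4]
    rw [← Ideal.Quotient.eq]
    have h6 : ∀ y : Za, Ideal.Quotient.mk P₀ (Polynomial.aeval y q) =
        Polynomial.aeval (Ideal.Quotient.mk P₀ y) q := fun y =>
      (Polynomial.aeval_algHom_apply (Ideal.Quotient.mkₐ ℤ P₀) y q).symm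
    rw [h6, h6, (Ideal.Quotient.eq).2 h1]
  obtain ⟨g, rfl⟩ := trans_int hp hP₀ hP hℓP₀ hℓP
  rw [Ideal.mem_pointwise_smul_iff_inv_smul_mem]
  have h1 := key g⁻¹
  constructor
  · intro h
    have h2 := P₀.add_mem h1 h
    rwa [sub_add_cancel] at h2
  · intro h
    have h2 := P₀.sub_mem h h1
    rwa [sub_sub_cancel] at h2

end Pool.Agent.K1H12.MV
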