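import Pool.Agent.K1H12.MV.Cyc

/-!
# Totally real fields
-/

set_option autoImplicit false

namespace Pool.Agent.K1H12.MV

open Subgroup Pool.Agent.Q60.MU IntermediateField Module
open scoped commutatorElement Topology Pointwise

/-- all embeddings of `F` into `ℂ` are real -/
def TotReal (F : IntermediateField ℚ Qa) : Prop := ∀ (φ : Qa →+* ℂ), ∀ x ∈ F, (φ x).im = 0

/-- The representation factors through the Galois group of a totally real number field. -/
def RealImage {p : ℕ} {S : Type} [AddCommGroup S] [Module (ZMod p) S]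
    (τ : Representation (ZMod p) Gal(Qa/ℚ) S) : Prop :=
  ∃ N : IntermediateField ℚ Qa, FiniteDimensional ℚ N ∧ TotReal N ∧
    ∀ g ∈ N.fixingSubgroup, ∀ x, τ g x = x

/-- For every simple representation over `𝔽_p` of the Galois group of a totally real Galois
extension of `ℚ` the set `𝓥` contains the field `ℚ(v)` of some nonzero vector `v`. -/
def SelectsReal (p : ℕ) [Fact p.Prime] (𝓥 : Set (IntermediateField ℚ Qa)) : Prop :=
  ∀ (S : Type) [AddCommGroup S] [Module (ZMod p) S] [Module.Finite (ZMod p) S]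
    (τ : Representation (ZMod p) Gal(Qa/ℚ) S), IsSimple τ → RealImage τ →
    ∃ v : S, v ≠ 0 ∧ vecField τ v ∈ 𝓥

/-- the totally real fields `ℚ(v)` of degree prime to `p` -/
def PrimeToReal (p : ℕ) [Fact p.Prime] : Set (IntermediateField ℚ Qa) :=
  {E | TotReal E ∧ IsVectorField p E ∧ ¬ p ∣ finrank ℚ E}

theorem TotReal.mono {E F : IntermediateField ℚ Qa} (h : TotReal F) (hEF : E ≤ F) : TotReal E :=
  fun φ x hx => h φ x (hEF hx)

/-- the field of all totally real numbers -/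
def realField : IntermediateField ℚ Qa where
  carrier := {x | ∀ φ : Qa →+* ℂ, (φ x).im = 0}
  mul_mem' := by
    intro x y hx hy φ
    rw [map_mul, Complex.mul_im, hx φ, hy φ, mul_zero, zero_mul, add_zero]
  add_mem' := by
    intro x y hx hy φ
    rw [map_add, Complex.add_im, hx φ, hy φ, add_zero]
  algebraMap_mem' := by
    intro r φ
    have h1 : φ (algebraMap ℚ Qa r) = (r : ℂ) := by
      rw [eq_ratCast, map_ratCast]
    rw [h1]
    exact Complex.ratCast_im r
  inv_mem' := by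
    intro x hx φ
    rw [map_inv₀, Complex.inv_im, hx φ, neg_zero, zero_div]

theorem totReal_iff {F : IntermediateField ℚ Qa} : TotReal F ↔ F ≤ realField :=
  ⟨fun h x hx φ => h φ x hx, fun h φ x hx => h hx φ⟩

theorem realField_stable (σ : Gal(Qa/ℚ)) {x : Qa} (hx : x ∈ realField) : σ x ∈ realField := by
  intro φ
  exact hx (φ.comp (σ : Qa →+* Qa))

/-- every totally real number field is contained in a totally real Galois extension -/
theorem exists_real_closure (F : IntermediateField ℚ Qa) [FiniteDimensional ℚ F]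
    (hF : TotReal F) : ∃ N : IntermediateField ℚ Qa, FiniteDimensional ℚ N ∧ F ≤ N ∧
      (∀ σ : Gal(Qa/ℚ), ∀ x ∈ N, σ x ∈ N) ∧ TotReal N := by
  obtain ⟨N, h1, h2, h3, h4⟩ := exists_closure F
  exact ⟨N, h1, h2, h3, totReal_iff.2 (h4 realField (fun σ x hx => realField_stable σ hx)
    (totReal_iff.1 hF))⟩

/-- **The reduction**, for one field. -/
theorem FGc.reduction' {p : ℕ} [Fact p.Prime] {I : Ideal Za → Subgroup Gal(Qa/ℚ)} (hI : Fam p I)
    {𝓥 : Set (IntermediateField ℚ Qa)} {N : IntermediateField ℚ Qa}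
    (h𝓥 : ∀ (S : Type) [AddCommGroup S] [Module (ZMod p) S] [Module.Finite (ZMod p) S]
      (τ : Representation (ZMod p) Gal(Qa/ℚ) S), IsSimple τ →
      (∀ g ∈ N.fixingSubgroup, ∀ x, τ g x = x) → ∃ v : S, v ≠ 0 ∧ vecField τ v ∈ 𝓥)
    [FiniteDimensional ℚ N] (hNn : ∀ σ : Gal(Qa/ℚ), ∀ x ∈ N, σ x ∈ N)
    (h : ∀ E ∈ 𝓥, E ≤ N → FGc p I E) : FGc p I N := by
  refine FGc.detect hI (F := ⊥) bot_le (fun σ _ x hx => hNn σ x hx) ?_
  intro S _ _ _ τ hτ hs
  have hbot : (⊥ : IntermediateField ℚ Qa).fixingSubgroup = ⊤ := fixingSubgroup_bot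
  let e : Gal(Qa/ℚ) →* (⊥ : IntermediateField ℚ Qa).fixingSubgroup :=
    { toFun := fun g => ⟨g, by rw [hbot]; exact mem_top g⟩
      map_one' := rfl
      map_mul' := fun _ _ => rfl }
  let τ' : Representation (ZMod p) Gal(Qa/ℚ) S := τ.comp e
  have hτ' : ∀ g (h : g ∈ (⊥ : IntermediateField ℚ Qa).fixingSubgroup) x, τ' g x = τ ⟨g, h⟩ x :=
    fun g h x => rfl
  have hs' : IsSimple τ' := by
    refine ⟨hs.1, fun U hU => hs.2 U ?_⟩
    rintro ⟨g, hg⟩ x hx
    have h1 := hU g x hx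
    rw [hτ' g hg] at h1
    exact h1
  have hN' : ∀ g ∈ N.fixingSubgroup, ∀ x, τ' g x = x := by
    intro g hg x
    rw [hτ' g (by rw [hbot]; exact mem_top g)]
    exact hτ _ hg x
  obtain ⟨v, hv, hE⟩ := h𝓥 S τ' hs' hN'
  refine ⟨fixedField (stab τ' v), ⟨bot_le, stab_le hN' v, h _ hE (stab_le hN' v)⟩, v, hv, ?_⟩
  intro g hg
  rw [stab_fixing inferInstance hN' v] at hg
  exact hg

theorem selectsReal_prime_to (p : ℕ) [Fact p.Prime] : SelectsReal p (PrimeToReal p) := by
  intro S _ _ _ τ hs hN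
  obtain ⟨N, hNf, hNr, hτ⟩ := hN
  obtain ⟨v, hv, h1, h2⟩ := selects_prime_to p S τ hs ⟨N, hNf, hτ⟩
  exact ⟨v, hv, hNr.mono (stab_le hτ v), h1, h2⟩

end Pool.Agent.K1H12.MV
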