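import Pool.Agent.Q60.MU.Reduction

/-!
# Ranks of closed subgroups of infinite index
-/

set_option autoImplicit false

namespace Pool.Agent.K1H12.MV

open Subgroup Pool.Agent.Q60.MU
open scoped commutatorElement Topology

variable {𝔾 : Type} [Group 𝔾]

/-- Every closed subgroup of finite index of `H` which contains the `p`-th powers, the commutators
and the elements of the groups `I w` has index at most `C`. -/
def Rk [TopologicalSpace 𝔾] (p : ℕ) {Ω : Type} (I : Ω → Subgroup 𝔾) (H : Subgroup 𝔾) (C : ℕ) :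
    Prop :=
  ∀ W ≤ H, IsClosed (W : Set 𝔾) → W.relIndex H ≠ 0 → gens p I H ⊆ W → W.relIndex H ≤ C

/-- the quotient group with the discrete topology -/
def DQ (Z : Subgroup 𝔾) [Z.Normal] : Type := 𝔾 ⧸ Z

instance (Z : Subgroup 𝔾) [Z.Normal] : Group (DQ Z) := inferInstanceAs (Group (𝔾 ⧸ Z))

instance (Z : Subgroup 𝔾) [Z.Normal] : TopologicalSpace (DQ Z) := ⊥

instance (Z : Subgroup 𝔾) [Z.Normal] : DiscreteTopology (DQ Z) := ⟨rfl⟩

/-- the quotient map -/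
def dq (Z : Subgroup 𝔾) [Z.Normal] : 𝔾 →* DQ Z := QuotientGroup.mk' Z

theorem dq_eq_one (Z : Subgroup 𝔾) [Z.Normal] (x : 𝔾) : dq Z x = 1 ↔ x ∈ Z :=
  QuotientGroup.eq_one_iff x

/-- the topology for which `Z` is open -/
def modTop (t : TopologicalSpace 𝔾) (Z : Subgroup 𝔾) [Z.Normal] : TopologicalSpace 𝔾 :=
  t ⊓ TopologicalSpace.induced (dq Z) inferInstance

theorem modTop_mul (t : TopologicalSpace 𝔾) (ht : ContinuousMul 𝔾) (Z : Subgroup 𝔾) [Z.Normal] :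
    @ContinuousMul 𝔾 (modTop t Z) _ := by
  have h1 : @ContinuousMul 𝔾 (TopologicalSpace.induced (dq Z) inferInstance) _ :=
    continuousMul_induced (dq Z)
  exact continuousMul_inf ht h1

theorem modTop_open_Z (t : TopologicalSpace 𝔾) (Z : Subgroup 𝔾) [Z.Normal] :
    @IsOpen 𝔾 (modTop t Z) (Z : Set 𝔾) := by
  have h1 : @IsOpen 𝔾 (TopologicalSpace.induced (dq Z) inferInstance) (Z : Set 𝔾) := by
    refine ⟨{1}, isOpen_discrete _, ?_⟩
    ext x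
    rw [Set.mem_preimage, Set.mem_singleton_iff]
    exact dq_eq_one Z x
  exact h1.mono inf_le_right

theorem open_of_closed [t : TopologicalSpace 𝔾] [IsTopologicalGroup 𝔾] {Z L W : Subgroup 𝔾}
    [Z.Normal] (hL : IsOpen (L : Set 𝔾)) (hW : W ≤ L ⊓ Z) (hWc : IsClosed (W : Set 𝔾))
    (hf : W.relIndex (L ⊓ Z) ≠ 0) : @IsOpen 𝔾 (modTop t Z) (W : Set 𝔾) := by
  have hfi : (W.subgroupOf (L ⊓ Z)).FiniteIndex := ⟨hf⟩
  have h1 : IsClosed (W.subgroupOf (L ⊓ Z) : Set (L ⊓ Z : Subgroup 𝔾)) :=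
    hWc.preimage continuous_subtype_val
  obtain ⟨V, hV, hVW⟩ := (W.subgroupOf (L ⊓ Z)).isOpen_of_isClosed_of_finiteIndex h1
  have h2 : (W : Set 𝔾) = (V ∩ (L : Set 𝔾)) ∩ (Z : Set 𝔾) := by
    ext x
    constructor
    · intro hx
      have h3 := hW hx
      have h4 : (⟨x, h3⟩ : (L ⊓ Z : Subgroup 𝔾)) ∈ Subtype.val ⁻¹' V := by
        rw [hVW]
        exact hx
      exact ⟨⟨h4, h3.1⟩, h3.2⟩
    · rintro ⟨⟨h3, h4⟩, h5⟩
      have h6 : (⟨x, ⟨h4, h5⟩⟩ : (L ⊓ Z : Subgroup 𝔾)) ∈ Subtype.val ⁻¹' V := h3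
      rw [hVW] at h6
      exact h6
  rw [h2]
  have h7 : @IsOpen 𝔾 (modTop t Z) (V ∩ (L : Set 𝔾)) := (hV.inter hL).mono inf_le_left
  exact @IsOpen.inter 𝔾 (modTop t Z) _ _ h7 (modTop_open_Z t Z)

theorem closed_of_open [t : TopologicalSpace 𝔾] [IsTopologicalGroup 𝔾] {Z W : Subgroup 𝔾}
    [Z.Normal] (hZ : IsClosed (Z : Set 𝔾)) (hW : W ≤ Z)
    (hWo : @IsOpen 𝔾 (modTop t Z) (W : Set 𝔾)) : IsClosed (W : Set 𝔾) := by
  have h1 : (W : Set 𝔾) ∈ @nhds 𝔾 (modTop t Z) 1 :=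
    @IsOpen.mem_nhds 𝔾 (modTop t Z) 1 _ hWo W.one_mem
  have h2 : @nhds 𝔾 (modTop t Z) 1 = 𝓝 (1 : 𝔾) ⊓ Filter.principal (Z : Set 𝔾) := by
    have h3 : @nhds 𝔾 (TopologicalSpace.induced (dq Z) inferInstance) 1 =
        Filter.principal (Z : Set 𝔾) := by
      rw [nhds_induced, nhds_discrete, Filter.comap_pure]
      congr 1
      ext x
      rw [Set.mem_preimage, Set.mem_singleton_iff, map_one]
      exact dq_eq_one Z x
    rw [← h3]
    exact nhds_inf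
  rw [h2, Filter.mem_inf_principal] at h1
  have h3 : IsOpen (W.subgroupOf Z : Set Z) := by
    refine (W.subgroupOf Z).isOpen_of_mem_nhds (g := 1) ?_
    have h4 : Subtype.val ⁻¹' {x : 𝔾 | x ∈ (Z : Set 𝔾) → x ∈ (W : Set 𝔾)} ∈ 𝓝 (1 : Z) :=
      continuous_subtype_val.continuousAt.preimage_mem_nhds h1
    refine Filter.mem_of_superset h4 ?_
    intro x hx
    exact hx x.2
  have h4 : IsClosed (W.subgroupOf Z : Set Z) := (W.subgroupOf Z).isClosed_of_isOpen h3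
  have h5 := hZ.isClosedEmbedding_subtypeVal.isClosedMap _ h4
  convert h5 using 1
  ext x
  constructor
  · intro hx
    exact ⟨⟨x, hW hx⟩, hx, rfl⟩
  · rintro ⟨y, hy, rfl⟩
    exact hy

theorem rank_of_rk [t : TopologicalSpace 𝔾] [IsTopologicalGroup 𝔾] {p : ℕ} {Ω : Type}
    {I : Ω → Subgroup 𝔾} {Z L : Subgroup 𝔾} [Z.Normal] (hZ : IsClosed (Z : Set 𝔾)) {C : ℕ}
    (h : Rk p I (L ⊓ Z) C) : @RankLe 𝔾 _ (modTop t Z) p Ω I (L ⊓ Z) C := by
  intro W hW hWo hf hg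
  exact h W hW (closed_of_open hZ (hW.trans inf_le_right) hWo) hf hg

theorem rk_of_rank [t : TopologicalSpace 𝔾] [IsTopologicalGroup 𝔾] {p : ℕ} {Ω : Type}
    {I : Ω → Subgroup 𝔾} {Z L : Subgroup 𝔾} [Z.Normal] (hL : IsOpen (L : Set 𝔾)) {C : ℕ}
    (h : @RankLe 𝔾 _ (modTop t Z) p Ω I (L ⊓ Z) C) : Rk p I (L ⊓ Z) C := by
  intro W hW hWc hf hg
  exact h W hW (open_of_closed hL hW hWc hf) hf hg

/-- **Subfields.** -/
theorem Rk.of_le [TopologicalSpace 𝔾] {p : ℕ} {Ω : Type} {I : Ω → Subgroup 𝔾}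
    {K L : Subgroup 𝔾} (hKL : K ≤ L) (hKc : IsClosed (K : Set 𝔾)) (hf : K.relIndex L ≠ 0) {C : ℕ}
    (hC : Rk p I K C) : Rk p I L (C * K.relIndex L) := by
  intro W hWL hWc hWf hg
  have h1 : (W ⊓ K).relIndex K ≠ 0 := by
    rw [inf_relIndex_right]
    exact fun h => hWf (relIndex_eq_zero_of_le_right hKL h)
  have h2 := hC (W ⊓ K) inf_le_right (by
    rw [coe_inf]
    exact hWc.inter hKc) h1 (fun x hx => ⟨hg (gens_mono hKL hx), gens_subset hx⟩)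
  have h3 := relIndex_mul_relIndex (W ⊓ K) K L inf_le_right hKL
  have h4 : (W ⊓ K).relIndex L ≠ 0 := by
    rw [← h3]
    exact mul_ne_zero h1 hf
  calc W.relIndex L ≤ (W ⊓ K).relIndex L := relIndex_le_of_le_left inf_le_left h4
    _ = (W ⊓ K).relIndex K * K.relIndex L := h3.symm
    _ ≤ C * K.relIndex L := Nat.mul_le_mul_right _ h2

theorem Rk.mono [TopologicalSpace 𝔾] {p : ℕ} {Ω : Type} {I : Ω → Subgroup 𝔾}
    {K : Subgroup 𝔾} {C C' : ℕ} (hC : Rk p I K C) (h : C ≤ C') : Rk p I K C' :=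
  fun W h1 h2 h3 h4 => (hC W h1 h2 h3 h4).trans h

theorem Rk.conj [TopologicalSpace 𝔾] [IsTopologicalGroup 𝔾] {p : ℕ} {Ω : Type}
    [MulAction 𝔾 Ω] {I : Ω → Subgroup 𝔾}
    (hI : ∀ (g : 𝔾) (w : Ω), ∀ x ∈ I w, g * x * g⁻¹ ∈ I (g • w)) {K : Subgroup 𝔾} {C : ℕ}
    (h : Rk p I K C) (g : 𝔾) : Rk p I (K.map (MulAut.conj g).toMonoidHom) C := by
  intro W hWK hWc hWf hg
  have hc : ∀ x, (MulAut.conj g).toMonoidHom x = g * x * g⁻¹ := fun x => rfl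
  have hidx := relIndex_comap W (MulAut.conj g).toMonoidHom K
  rw [← hidx] at hWf ⊢
  refine h _ ?_ ?_ hWf ?_
  · intro x hx
    obtain ⟨y, hy, hyx⟩ := hWK hx
    rw [hc, hc] at hyx
    have h1 : y = x := mul_left_cancel (mul_right_cancel hyx)
    rw [← h1]
    exact hy
  · exact hWc.preimage ((continuous_const.mul continuous_id).mul continuous_const)
  · rintro y ((⟨a, ha, rfl⟩ | ⟨a, ha, b, hb, rfl⟩) | ⟨hx, w, hw⟩)
    · exact hg (Or.inl (Or.inl ⟨_, ⟨a, ha, rfl⟩, map_pow _ _ _⟩))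
    · exact hg (Or.inl (Or.inr ⟨_, ⟨a, ha, rfl⟩, _, ⟨b, hb, rfl⟩, map_commutatorElement _ _ _⟩))
    · exact hg (Or.inr ⟨⟨y, hx, rfl⟩, g • w, hI g w y hw⟩)

end Pool.Agent.K1H12.MV
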